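import Pool.Agent.Q236.MR.Mach

set_option autoImplicit false

/-!
# Some of the coordinates of a product set
-/

namespace Pool.Agent.Q236.MR

open Finset Filter Polynomial
open Pool.Agent.Q236.RP (Box mem_Box ev_log_ge ev_pow_log)
open Pool.Agent.Q236.CG (BA mem_BA CZ evm)
open Pool.Agent.H373R2.T7 (pz mem_pz Vz)

section Gen

variable {V : Type*} [DecidableEq V] {n m : ℕ}

open Classical in
/-- the number of the extensions of a vector -/
lemma fiber (B : Fin m → Finset V) (σ : Fin n → Fin m) (hσ : Function.Injective σ) (c' : Fin n → V)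
    (hc' : c' ∈ Fintype.piFinset (fun t => B (σ t))) :
    ((Fintype.piFinset B).filter (fun c => (fun t => c (σ t)) = c')).card = ∏ i ∈ univ \ univ.image σ, (B i).card := by
  obtain ⟨G, hG⟩ : ∃ G : Fin m → Finset V, G = fun i => if h : ∃ t, σ t = i then {c' h.choose} else B i := ⟨_, rfl⟩
  have h1 : (Fintype.piFinset B).filter (fun c => (fun t => c (σ t)) = c') = Fintype.piFinset G := by
    ext c
    rw [mem_filter, Fintype.mem_piFinset, Fintype.mem_piFinset]
    constructor
    · rintro ⟨h1, h2⟩ i
      rw [hG]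
      simp only
      split_ifs with h
      · rw [mem_singleton, ← h2]
        simp only
        rw [h.choose_spec]
      · exact h1 i
    · intro h1
      have h2 : ∀ t, c (σ t) = c' t := by
        intro t
        have h3 := h1 (σ t)
        rw [hG] at h3
        simp only at h3
        have hex : ∃ s, σ s = σ t := ⟨t, rfl⟩
        rw [dif_pos hex, mem_singleton] at h3
        rw [h3]
        congr 1
        exact hσ hex.choose_spec
      refine ⟨?_, funext h2⟩
      intro i
      by_cases h : ∃ t, σ t = i
      · obtain ⟨t, rfl⟩ := h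
        rw [h2]
        exact (Fintype.mem_piFinset.1 hc') t
      · have h3 := h1 i
        rw [hG] at h3
        simp only at h3
        rwa [dif_neg h] at h3
  rw [h1, Fintype.card_piFinset]
  have h2 : (univ : Finset (Fin m)) = univ.image σ ∪ (univ \ univ.image σ) := by
    rw [Finset.union_sdiff_of_subset (subset_univ _)]
  have h3 : ∏ i, (G i).card = (∏ i ∈ univ.image σ, (G i).card) * ∏ i ∈ univ \ univ.image σ, (G i).card := by
    conv_lhs => rw [h2]
    exact Finset.prod_union disjoint_sdiff
  rw [h3]
  have h4 : ∏ i ∈ univ.image σ, (G i).card = 1 := by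
    apply Finset.prod_eq_one
    intro i hi
    rw [mem_image] at hi
    obtain ⟨t, _, ht⟩ := hi
    rw [hG]
    simp only
    rw [dif_pos ⟨t, ht⟩, card_singleton]
  rw [h4, one_mul]
  apply Finset.prod_congr rfl
  intro i hi
  rw [Finset.mem_sdiff, Finset.mem_image] at hi
  rw [hG]
  simp only
  rw [dif_neg]
  rintro ⟨t, ht⟩
  exact hi.2 ⟨t, mem_univ _, ht⟩

open Classical in
lemma marg_count (B : Fin m → Finset V) (σ : Fin n → Fin m) (hσ : Function.Injective σ) (P : (Fin n → V) → Prop) :
    ((Fintype.piFinset B).filter (fun c => P (fun t => c (σ t)))).card =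
      ((Fintype.piFinset (fun t => B (σ t))).filter P).card * ∏ i ∈ univ \ univ.image σ, (B i).card := by
  have h1 : ∀ c ∈ (Fintype.piFinset B).filter (fun c => P (fun t => c (σ t))),
      (fun t => c (σ t)) ∈ (Fintype.piFinset (fun t => B (σ t))).filter P := by
    intro c hc
    rw [mem_filter, Fintype.mem_piFinset] at hc
    rw [mem_filter, Fintype.mem_piFinset]
    exact ⟨fun t => hc.1 (σ t), hc.2⟩
  rw [Finset.card_eq_sum_card_fiberwise h1]
  have h2 : ∀ c' ∈ (Fintype.piFinset (fun t => B (σ t))).filter P,
      (((Fintype.piFinset B).filter (fun c => P (fun t => c (σ t)))).filter (fun c => (fun t => c (σ t)) = c')).card =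
      ∏ i ∈ univ \ univ.image σ, (B i).card := by
    intro c' hc'
    rw [mem_filter] at hc'
    rw [← fiber B σ hσ c' hc'.1]
    congr 1
    ext c
    rw [mem_filter, mem_filter, mem_filter]
    constructor
    · rintro ⟨⟨h3, _⟩, h5⟩
      exact ⟨h3, h5⟩
    · rintro ⟨h3, h5⟩
      exact ⟨⟨h3, by rw [h5]; exact hc'.2⟩, h5⟩
  rw [Finset.sum_congr rfl h2, Finset.sum_const, smul_eq_mul]

open Classical in
/-- the proportion is the same -/
lemma marg (B : Fin m → Finset V) (σ : Fin n → Fin m) (hσ : Function.Injective σ) (P : (Fin n → V) → Prop) (θ : ℝ)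
    (h : (((Fintype.piFinset (fun t => B (σ t))).filter P).card : ℝ) ≤ θ * (Fintype.piFinset (fun t => B (σ t))).card) :
    (((Fintype.piFinset B).filter (fun c => P (fun t => c (σ t)))).card : ℝ) ≤ θ * (Fintype.piFinset B).card := by
  have h1 := marg_count B σ hσ P
  have h2 := marg_count B σ hσ (fun _ => True)
  rw [Finset.filter_true, Finset.filter_true] at h2
  rw [h1, h2]
  push_cast
  have h3 : (0 : ℝ) ≤ ∏ i ∈ univ \ univ.image σ, ((B i).card : ℝ) := Finset.prod_nonneg fun _ _ => Nat.cast_nonneg _
  calc (((Fintype.piFinset (fun t => B (σ t))).filter P).card : ℝ) * ∏ i ∈ univ \ univ.image σ, ((B i).card : ℝ) ≤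
      (θ * (Fintype.piFinset (fun t => B (σ t))).card) * ∏ i ∈ univ \ univ.image σ, ((B i).card : ℝ) :=
        mul_le_mul_of_nonneg_right h h3
    _ = _ := by ring

/-- the same, for all instances -/
lemma marg' (B : Fin m → Finset V) (σ : Fin n → Fin m) (hσ : Function.Injective σ) (P : (Fin n → V) → Prop) (θ : ℝ)
    [DecidablePred P] [DecidablePred fun c : Fin m → V => P (fun t => c (σ t))]
    (h : (((Fintype.piFinset (fun t => B (σ t))).filter P).card : ℝ) ≤ θ * (Fintype.piFinset (fun t => B (σ t))).card) :
    (((Fintype.piFinset B).filter (fun c => P (fun t => c (σ t)))).card : ℝ) ≤ θ * (Fintype.piFinset B).card := by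
  classical
  have h1 := marg B σ hσ P θ (by
    refine le_trans (le_of_eq ?_) h
    congr)
  refine le_trans (le_of_eq ?_) h1
  congr

end Gen

end Pool.Agent.Q236.MR
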