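import Pool.Agent.Q236.MR.Core
import Pool.Agent.Q236.CG.Final

set_option autoImplicit false

/-!
# Bateman-Horn in every short interval, for almost all systems of polynomials
-/

namespace Pool.Agent.Q236.MR

open Finset Filter Polynomial
open Pool.Agent.Q236.RP (ev_log_ge ev_pow_log ev_loglog)
open Pool.Agent.Q236.CG (BA mem_BA mi pri pri_nonneg pri_le CZ cg_main DD PP MM vals evm)
open Pool.Agent.H373R2.T7 (pz mem_pz Vz)

variable {n d : ℕ}

/-- the forms are the values themselves -/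
def idF (n : ℕ) : Forms n n := ⟨id, fun _ => 1, fun _ => 0⟩

lemma fv_id (v : Fin n → ℤ) (t : Fin n) : fv (idF n) v t = v t := by
  unfold fv idF
  simp

lemma vals_pv (F : Fin n → ℤ[X]) (c : Fin n → Fin d → ℤ) (k : ℕ) (i : Fin n) :
    vals (fun i k => (F i).eval (k : ℤ)) (fun _ => 1) c k i = pv F c k i := by
  unfold vals evm pv
  rw [one_mul]

/-- the points of the progression -/
noncomputable def ap (b q a h : ℕ) : Finset ℕ := (Ioc a (a + h)).image (fun k => b + q * k)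

lemma mem_ap (b q a h k : ℕ) (hk : k ∈ Ioc a (a + h)) : b + q * k ∈ ap b q a h := mem_image_of_mem _ hk

lemma sum_ap (b q a h : ℕ) (hq : 1 ≤ q) (f : ℕ → ℝ) : ∑ l ∈ ap b q a h, f l = ∑ k ∈ Ioc a (a + h), f (b + q * k) := by
  unfold ap
  rw [Finset.sum_image]
  intro k _ l _ hkl
  simp only at hkl
  have h1 : q * k = q * l := by omega
  exact Nat.eq_of_mul_eq_mul_left (by omega) h1

open Classical in
/-- **Bateman-Horn in short intervals of arithmetic progressions.** -/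
theorem mach (n B : ℕ) (hn : 1 ≤ n) (η : ℝ) (hη : 0 < η) : ∃ d0 : ℕ, ∀ D A' C d : ℕ, d0 ≤ d → d ≤ D + 1 → 1 ≤ C →
    ∀ ε : ℝ, 0 < ε → ∀ᶠ X : ℕ in atTop, ∀ b q z a h : ℕ, 1 ≤ q → (z : ℝ) ≤ Real.log X ^ A' → Real.log X ^ (C * d) ≤ z →
    Real.log X ^ ((n : ℝ) + η) ≤ h → ∀ (F : Fin n → ℤ[X]) (Z : Fin n → Fin d → ℤ) (Y : Fin n → Fin d → ℕ),
    (∀ i, (F i).natDegree ≤ D) → (∀ i, CZ C X (fun k => (F i).eval (k : ℤ)) 1 (Z i) (Y i) (ap b q a h)) →
    (((BA Z Y).filter (fun c => ¬ |(((Ioc a (a + h)).filter (fun k => ∀ i, (pv F c (b + q * k) i).toNat.Prime)).card : ℝ) -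
      PQ b q (idF n) F z c / Vz z ^ n * (h / Real.log X ^ n)| ≤ ε * (PQ b q (idF n) F z c / Vz z ^ n * (h / Real.log X ^ n)))).card : ℝ) ≤
      (BA Z Y).card / Real.log X ^ B := by
  obtain ⟨d1, hd1⟩ := cg_main n (B + 1) 0 hn (η / 4) (by positivity)
  refine ⟨max d1 2, ?_⟩
  intro D A' C d hd hD hC ε hε
  have hd1' : d1 ≤ d := (le_max_left _ _).trans hd
  have hd2 : 2 ≤ d := (le_max_right _ _).trans hd
  filter_upwards [hd1 A' C d hd1', count_main n d n D A' C 0 (B + 1) 1 (min ε 1 / 4) one_pos (by positivity) hd2 hD,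
    core n n D d A' C hn hD η ε hη hε, ev_log_ge 2] with X hcg hcount hcore hL2 b q z a h hq hz hzC hh F Z Y hF hCZ
  obtain ⟨L, hL⟩ : ∃ L, L = Real.log (X : ℝ) := ⟨_, rfl⟩
  have hn1 : (1 : ℝ) ≤ n := by exact_mod_cast hn
  have hL1 : 1 ≤ Real.log X := by linarith
  have hLz : Real.log X ≤ z := by
    refine le_trans ?_ hzC
    calc Real.log X = Real.log X ^ 1 := (pow_one _).symm
      _ ≤ Real.log X ^ (C * d) := pow_le_pow_right₀ hL1 (Nat.mul_pos hC (by omega))
  have h1 := hcg z hz hzC (fun i k => (F i).eval (k : ℤ)) (fun _ => 1) Z Y (ap b q a h) hCZ 1 (fun _ _ => 1)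
    (by simp) (fun _ _ _ => by simp)
  have hside : ∀ i j, (X : ℝ) / Real.log X ^ C ≤ Y i j := fun i j => (hCZ i).side j
  have hs0 : ∀ t : Fin n, ∀ p : ℕ, p.Prime → (p : ℤ) ∣ (idF n).s t → p ≤ 0 := by
    intro t p hp hdv
    exfalso
    have h2 : (p : ℤ) ∣ 1 := hdv
    have h3 : p ∣ 1 := by exact_mod_cast h2
    exact hp.one_lt.ne' (Nat.dvd_one.1 h3)
  have h2 := hcount b q z a h hz hLz (by
    refine le_trans ?_ hh
    exact Real.rpow_le_rpow_of_exponent_le hL1 (by linarith)) Z Y hside (idF n) F hF hs0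
  obtain ⟨W, hW⟩ : ∃ W, W = BA Z Y := ⟨_, rfl⟩
  rw [← hW] at h1 h2 ⊢
  have hsub : W.filter (fun c => ¬ |(((Ioc a (a + h)).filter (fun k => ∀ i, (pv F c (b + q * k) i).toNat.Prime)).card : ℝ) -
      PQ b q (idF n) F z c / Vz z ^ n * (h / Real.log X ^ n)| ≤ ε * (PQ b q (idF n) F z c / Vz z ^ n * (h / Real.log X ^ n))) ⊆
      W.filter (fun c => ∃ t < 1, Real.log X ^ (η / 4) * Real.sqrt (1 + (∑ k ∈ ap b q a h, |(1 : ℝ)|) / Real.log X ^ n) <
        |∑ k ∈ ap b q a h, (1 : ℝ) * DD z (vals (fun i k => (F i).eval (k : ℤ)) (fun _ => 1) c k)|) ∪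
      W.filter (fun c => ¬ |((Sv b q (idF n) F (Ioc a (a + h)) (pz z) c).card : ℝ) - h * PQ b q (idF n) F z c| ≤
        min ε 1 / 4 * (h * PQ b q (idF n) F z c)) := by
    intro c hc
    rw [mem_filter] at hc
    by_contra hcon
    rw [mem_union, mem_filter, mem_filter] at hcon
    push Not at hcon
    obtain ⟨hcon1, hcon2⟩ := hcon
    apply hc.2
    have hcW := hc.1
    have g1 := hcon1 hcW 0 Nat.one_pos
    have g2 := hcon2 hcW
    have hval : ∀ k ∈ Ioc a (a + h), ∀ t, (X : ℝ) / Real.log X ^ C ≤ fv (idF n) (pv F c (b + q * k)) t ∧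
        (fv (idF n) (pv F c (b + q * k)) t : ℝ) ≤ X * Real.log X ^ C := by
      intro k hk t
      rw [hW, mem_BA] at hcW
      have e1 := (hCZ t).low _ (mem_ap b q a h k hk) (c t) (hcW t)
      have e2 := (hCZ t).up _ (mem_ap b q a h k hk) (c t) (hcW t)
      have e3 : evm (fun k => (F t).eval (k : ℤ)) 1 (c t) (b + q * k) = fv (idF n) (pv F c (b + q * k)) t := by
        rw [fv_id]
        unfold evm pv
        rw [one_mul]
      rw [← e3]
      exact ⟨e1, e2⟩
    have hsum : ∑ k ∈ ap b q a h, (1 : ℝ) * DD z (vals (fun i k => (F i).eval (k : ℤ)) (fun _ => 1) c k) =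
        ∑ k ∈ Ioc a (a + h), ∏ t, pri (fv (idF n) (pv F c (b + q * k)) t) -
          ∑ k ∈ Ioc a (a + h), ∏ t, mi z (fv (idF n) (pv F c (b + q * k)) t) := by
      rw [sum_ap b q a h hq, ← Finset.sum_sub_distrib]
      apply Finset.sum_congr rfl
      intro k _
      rw [one_mul]
      unfold DD PP MM
      congr 1
      · apply Finset.prod_congr rfl
        intro i _
        rw [vals_pv, fv_id]
      · apply Finset.prod_congr rfl
        intro i _
        rw [vals_pv, fv_id]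
    have hcard : (∑ _k ∈ ap b q a h, |(1 : ℝ)|) = h := by
      rw [sum_ap b q a h hq (fun _ => |(1 : ℝ)|), abs_one, Finset.sum_const, nsmul_eq_mul, mul_one, Nat.card_Ioc,
        Nat.add_sub_cancel_left]
    rw [hsum, hcard] at g1
    have h3 := hcore b q z a h hz hLz hh (idF n) F c hF hval g1 g2
    simp only [fv_id] at h3
    exact h3
  have h4 : ((W.filter (fun c => ¬ |(((Ioc a (a + h)).filter (fun k => ∀ i, (pv F c (b + q * k) i).toNat.Prime)).card : ℝ) -
      PQ b q (idF n) F z c / Vz z ^ n * (h / Real.log X ^ n)| ≤ ε * (PQ b q (idF n) F z c / Vz z ^ n * (h / Real.log X ^ n)))).card : ℝ) ≤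
      W.card / Real.log X ^ (B + 1) + W.card / Real.log X ^ (B + 1) := by
    have h5 := (card_le_card hsub).trans (card_union_le _ _)
    have h6 : ((W.filter (fun c => ¬ |(((Ioc a (a + h)).filter (fun k => ∀ i, (pv F c (b + q * k) i).toNat.Prime)).card : ℝ) -
      PQ b q (idF n) F z c / Vz z ^ n * (h / Real.log X ^ n)| ≤ ε * (PQ b q (idF n) F z c / Vz z ^ n * (h / Real.log X ^ n)))).card : ℝ) ≤
      ((W.filter (fun c => ∃ t < 1, Real.log X ^ (η / 4) * Real.sqrt (1 + (∑ k ∈ ap b q a h, |(1 : ℝ)|) / Real.log X ^ n) <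
        |∑ k ∈ ap b q a h, (1 : ℝ) * DD z (vals (fun i k => (F i).eval (k : ℤ)) (fun _ => 1) c k)|)).card : ℝ) +
      ((W.filter (fun c => ¬ |((Sv b q (idF n) F (Ioc a (a + h)) (pz z) c).card : ℝ) - h * PQ b q (idF n) F z c| ≤
        min ε 1 / 4 * (h * PQ b q (idF n) F z c))).card : ℝ) := by exact_mod_cast h5
    exact h6.trans (add_le_add h1 h2)
  refine h4.trans ?_
  have hLB : 0 < Real.log (X : ℝ) ^ B := by positivity
  rw [pow_succ, ← two_mul, mul_div_assoc', div_le_div_iff₀ (by positivity) hLB]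
  have hW0 : (0 : ℝ) ≤ W.card := Nat.cast_nonneg _
  nlinarith [mul_nonneg hW0 hLB.le]

end Pool.Agent.Q236.MR
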