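import Pool.Agent.Q236.MR.BoxA
import Pool.Agent.H373R2.T7.SysCount

set_option autoImplicit false

/-!
# Sieving the arrays of a box
-/

namespace Pool.Agent.Q236.MR

open Finset Filter
open Pool.Agent.Q236.RP (Box mem_Box card_Box ev_log_ge ev_pow_log)
open Pool.Agent.Q236.CG (BA mem_BA)
open Pool.Agent.H373R2.T7 (pz mem_pz sum_pz_le card_pz_le sieve_gen' es es_le choice card_small)

variable {n d : ℕ}

open Classical in
/-- **The sieve on a box.** -/
theorem box_sieve (n d κ A C U : ℕ) : ∀ᶠ X : ℕ in atTop, ∀ z : ℕ, (z : ℝ) ≤ Real.log X ^ A →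
    ∀ (Z : Fin n → Fin d → ℤ) (Y : Fin n → Fin d → ℕ), (∀ i j, (X : ℝ) / Real.log X ^ C ≤ Y i j) →
    ∀ E : ℕ → (Fin n → Fin d → ℤ) → Prop, (∀ p, Per p (E p)) →
    (∀ p ∈ pz z, (((Om n d p).filter (fun c => E p c)).card : ℝ) ≤ κ / p * (Om n d p).card) →
    |(((BA Z Y).filter (fun c => ∀ p ∈ pz z, ¬ E p c)).card : ℝ) -
      (BA Z Y).card * ∏ p ∈ pz z, ((((Om n d p).filter (fun c => ¬ E p c)).card : ℝ) / (Om n d p).card)| ≤
      (BA Z Y).card / Real.log X ^ U := by
  obtain ⟨N0, hN0⟩ := choice κ A (U + 1) 4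
  filter_upwards [ev_log_ge 4, ev_pow_log (4 * (C + U + 1) + 4), ev_pow_log (4 * (C + 1)), ev_log_ge (2 * (n * d : ℕ)), eventually_ge_atTop N0] with X hL4 hP hP2
    hLnd hXN z hz Z Y hY E hE hdens
  obtain ⟨r, hr1, hr2, _⟩ := hN0 X hXN z hz
  obtain ⟨L, hL⟩ : ∃ L, L = Real.log (X : ℝ) := ⟨_, rfl⟩
  rw [← hL] at hL4 hP hP2 hLnd hz hY hr1 ⊢
  have hL0 : 0 < L := by linarith
  have hL1 : 1 ≤ L := by linarith
  have hLp : ∀ j : ℕ, 0 < L ^ j := fun j => by positivity
  have hXp : (0 : ℝ) < X := lt_of_lt_of_le (hLp _) hP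
  obtain ⟨R, hR⟩ : ∃ R : ℝ, R = ((z : ℝ) + 1) ^ r := ⟨_, rfl⟩
  rw [← hR] at hr2
  have hz0 : (0 : ℝ) ≤ z := Nat.cast_nonneg _
  have hR1 : 1 ≤ R := by rw [hR]; exact one_le_pow₀ (by linarith)
  obtain ⟨δ, hδ⟩ : ∃ δ : ℝ, δ = L ^ C * R / X := ⟨_, rfl⟩
  have hδ0 : 0 ≤ δ := by rw [hδ]; positivity
  -- `X ≥ R ^ 4` and `X ≥ L ^ (4 K)` give `X ≥ R ^ 2 L ^ (2 K)`
  have hkey : ∀ K : ℕ, L ^ (4 * K) ≤ X → R ^ 2 * L ^ (2 * K) ≤ X := by
    intro K hK
    have h1 : (R ^ 2 * L ^ (2 * K)) ^ 2 ≤ (X : ℝ) ^ 2 := by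
      have e : (R ^ 2 * L ^ (2 * K)) ^ 2 = R ^ 4 * L ^ (4 * K) := by
        rw [mul_pow, ← pow_mul, ← pow_mul]
        congr 2
        ring
      rw [e, sq]
      exact mul_le_mul hr2 hK (by positivity) hXp.le
    exact le_of_sq_le_sq h1 hXp.le
  have hδL : ∀ K : ℕ, L ^ (4 * (C + K)) ≤ X → R * δ * L ^ K ≤ 1 := by
    intro K hK
    have h1 := hkey (C + K) hK
    rw [hδ, mul_div_assoc', div_mul_eq_mul_div, div_le_one hXp]
    refine le_trans ?_ h1
    have h2 : R * (L ^ C * R) * L ^ K = R ^ 2 * L ^ (C + K) := by rw [pow_add]; ring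
    rw [h2]
    apply mul_le_mul_of_nonneg_left _ (by positivity)
    exact pow_le_pow_right₀ hL1 (by omega)
  have hδ1 : ((n * d : ℕ) : ℝ) * δ ≤ 1 := by
    have h1 := hδL 1 (by
      refine le_trans ?_ hP2
      exact le_of_eq rfl)
    rw [pow_one] at h1
    have h2 : ((n * d : ℕ) : ℝ) ≤ L := by
      have : (0 : ℝ) ≤ ((n * d : ℕ) : ℝ) := Nat.cast_nonneg _
      linarith
    calc ((n * d : ℕ) : ℝ) * δ ≤ L * δ := mul_le_mul_of_nonneg_right h2 hδ0
      _ ≤ R * δ * L := by nlinarith [mul_nonneg hδ0 hL0.le]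
      _ ≤ 1 := h1
  have hdense : ∀ p ∈ pz z, (0 : ℝ) < (Om n d p).card := fun p hp => Om_pos p (mem_pz.1 hp).2.pos
  have key := sieve_gen' (BA Z Y) (fun _ => (1 : ℝ)) (fun _ _ => zero_le_one) E (pz z)
    (fun p => (((Om n d p).filter (fun c => E p c)).card : ℝ) / (Om n d p).card) (fun p hp => by
      constructor
      · positivity
      · rw [div_le_one (hdense p hp)]
        exact_mod_cast card_filter_le _ _) ((BA Z Y).card : ℝ) (Nat.cast_nonneg _)
    (fun _ => 2 * ((n * d : ℕ) * δ) * (BA Z Y).card) r (by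
      intro S hS hSr
      have hSp : ∀ p ∈ S, p.Prime := fun p hp => (mem_pz.1 (hS hp)).2
      have hm1 : 1 ≤ ∏ p ∈ S, p := Nat.pos_of_ne_zero (Finset.prod_ne_zero_iff.2 fun p hp => (hSp p hp).ne_zero)
      have hmR : ((∏ p ∈ S, p : ℕ) : ℝ) ≤ R := by
        push_cast
        calc ∏ p ∈ S, (p : ℝ) ≤ ∏ _p ∈ S, ((z : ℝ) + 1) := by
              apply Finset.prod_le_prod (fun _ _ => Nat.cast_nonneg _)
              intro p hp
              have : (p : ℝ) ≤ z := by exact_mod_cast (mem_pz.1 (hS hp)).1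
              linarith
          _ = ((z : ℝ) + 1) ^ S.card := Finset.prod_const _
          _ ≤ R := by
              rw [hR]
              exact pow_le_pow_right₀ (by linarith) hSr
      have hPer : Per (∏ p ∈ S, p) (fun c : Fin n → Fin d → ℤ => ∀ p ∈ S, E p c) := by
        intro c c' hcc
        have : ∀ p ∈ S, (E p c ↔ E p c') := by
          intro p hp
          apply hE p
          intro i j
          refine Dvd.dvd.trans ?_ (hcc i j)
          exact_mod_cast Finset.dvd_prod_of_mem _ hp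
        constructor
        · intro h p hp
          exact (this p hp).1 (h p hp)
        · intro h p hp
          exact (this p hp).2 (h p hp)
      have h1 := box_per Z Y (∏ p ∈ S, p) hm1 (fun c => ∀ p ∈ S, E p c) hPer δ hδ0 (by
        intro i j
        have h2 : δ * ((X : ℝ) / L ^ C) = R := by
          rw [hδ]
          field_simp
        calc ((∏ p ∈ S, p : ℕ) : ℝ) ≤ R := hmR
          _ = δ * ((X : ℝ) / L ^ C) := h2.symm
          _ ≤ δ * Y i j := mul_le_mul_of_nonneg_left (hY i j) hδ0) hδ1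
      have h2 := crt_many E hE S hSp
      have e1 : ∑ i ∈ (BA Z Y).filter (fun i => ∀ p ∈ S, E p i), (1 : ℝ) = (((BA Z Y).filter (fun c => ∀ p ∈ S, E p c)).card : ℝ) := by
        rw [Finset.sum_const, nsmul_eq_mul, mul_one]
      rw [e1, ← h2]
      convert h1)
  have e0 : ∑ i ∈ (BA Z Y).filter (fun i => ∀ p ∈ pz z, ¬ E p i), (1 : ℝ) =
      (((BA Z Y).filter (fun c => ∀ p ∈ pz z, ¬ E p c)).card : ℝ) := by
    rw [Finset.sum_const, nsmul_eq_mul, mul_one]
  rw [e0] at key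
  have e2 : ∏ p ∈ pz z, (1 - (((Om n d p).filter (fun c => E p c)).card : ℝ) / (Om n d p).card) =
      ∏ p ∈ pz z, ((((Om n d p).filter (fun c => ¬ E p c)).card : ℝ) / (Om n d p).card) := by
    apply Finset.prod_congr rfl
    intro p hp
    have h1 := card_filter_add_card_filter_not (s := Om n d p) (fun c => E p c)
    have h2 : (((Om n d p).filter (fun c => E p c)).card : ℝ) + ((Om n d p).filter (fun c => ¬ E p c)).card = (Om n d p).card := by
      exact_mod_cast h1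
    have h3 := hdense p hp
    field_simp
    linarith
  rw [e2] at key
  refine key.trans ?_
  have e1 : ∑ j ∈ range (r + 1), ∑ _S ∈ (pz z).powersetCard j, (2 * ((n * d : ℕ) * δ) * ((BA Z Y).card : ℝ)) =
      ((∑ j ∈ range (r + 1), ((pz z).powersetCard j).card : ℕ) : ℝ) * (2 * ((n * d : ℕ) * δ) * (BA Z Y).card) := by
    push_cast
    rw [Finset.sum_mul]
    apply Finset.sum_congr rfl
    intro j _
    rw [Finset.sum_const, nsmul_eq_mul]
  rw [e1]
  have h3 := card_small (pz z) r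
  have h4 : (((pz z).card : ℝ) + 1) ^ r ≤ R := by
    rw [hR]
    have : ((pz z).card : ℝ) ≤ z := by exact_mod_cast card_pz_le z
    gcongr
  have hBA : (0 : ℝ) ≤ (BA Z Y).card := Nat.cast_nonneg _
  have h5 : es (fun p => (((Om n d p).filter (fun c => E p c)).card : ℝ) / (Om n d p).card) (pz z) r ≤ 1 / L ^ (U + 1) := by
    refine (es_le (fun p _ => by positivity) r).trans (le_trans ?_ hr1)
    apply Real.exp_le_exp.2
    have h6 : ∑ p ∈ pz z, (((Om n d p).filter (fun c => E p c)).card : ℝ) / (Om n d p).card ≤ κ * (1 + Real.log z) := by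
      have h7 : ∀ p ∈ pz z, (((Om n d p).filter (fun c => E p c)).card : ℝ) / (Om n d p).card ≤ κ * (1 / (p : ℝ)) := by
        intro p hp
        rw [div_le_iff₀ (hdense p hp), mul_one_div]
        exact hdens p hp
      refine (Finset.sum_le_sum h7).trans ?_
      rw [← Finset.mul_sum]
      exact mul_le_mul_of_nonneg_left (sum_pz_le z) (Nat.cast_nonneg _)
    linarith
  have g1 : ((∑ j ∈ range (r + 1), ((pz z).powersetCard j).card : ℕ) : ℝ) * (2 * ((n * d : ℕ) * δ) * (BA Z Y).card) ≤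
      (1 / L ^ U) * (1 / 2) * (BA Z Y).card := by
    have h6 : ((∑ j ∈ range (r + 1), ((pz z).powersetCard j).card : ℕ) : ℝ) * (2 * ((n * d : ℕ) * δ) * (BA Z Y).card) ≤
        R * (2 * ((n * d : ℕ) * δ) * (BA Z Y).card) := mul_le_mul_of_nonneg_right (h3.trans h4) (by positivity)
    refine h6.trans ?_
    have h7 := hδL (U + 2) (by
      refine le_trans ?_ hP
      apply pow_le_pow_right₀ hL1
      omega)
    have h8 : R * (2 * ((n * d : ℕ) * δ)) ≤ (1 / L ^ U) * (1 / 2) := by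
      rw [one_div_mul_one_div, le_div_iff₀ (by positivity)]
      have h9 : R * δ * L ^ (U + 2) = (R * δ * L ^ U) * L ^ 2 := by rw [pow_add]; ring
      rw [h9] at h7
      have h10 : 0 ≤ R * δ * L ^ U := by positivity
      have h11 : 4 * ((n * d : ℕ) : ℝ) ≤ L ^ 2 := by nlinarith
      calc R * (2 * (((n * d : ℕ) : ℝ) * δ)) * (L ^ U * 2) = (R * δ * L ^ U) * (4 * ((n * d : ℕ) : ℝ)) := by ring
        _ ≤ (R * δ * L ^ U) * L ^ 2 := mul_le_mul_of_nonneg_left h11 h10
        _ ≤ 1 := h7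
    calc R * (2 * ((n * d : ℕ) * δ) * (BA Z Y).card) = R * (2 * ((n * d : ℕ) * δ)) * (BA Z Y).card := by ring
      _ ≤ (1 / L ^ U) * (1 / 2) * (BA Z Y).card := mul_le_mul_of_nonneg_right h8 hBA
  have g2 : 2 * ((BA Z Y).card : ℝ) * es (fun p => (((Om n d p).filter (fun c => E p c)).card : ℝ) / (Om n d p).card) (pz z) r ≤
      (1 / L ^ U) * (1 / 2) * (BA Z Y).card := by
    calc 2 * ((BA Z Y).card : ℝ) * es (fun p => (((Om n d p).filter (fun c => E p c)).card : ℝ) / (Om n d p).card) (pz z) r ≤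
        2 * ((BA Z Y).card : ℝ) * (1 / L ^ (U + 1)) := mul_le_mul_of_nonneg_left h5 (by positivity)
      _ = (1 / L ^ U) * (2 / L) * (BA Z Y).card := by rw [pow_succ]; field_simp
      _ ≤ (1 / L ^ U) * (1 / 2) * (BA Z Y).card := by
          apply mul_le_mul_of_nonneg_right _ hBA
          apply mul_le_mul_of_nonneg_left _ (by positivity)
          rw [div_le_iff₀ hL0]
          linarith
  calc _ ≤ (1 / L ^ U) * (1 / 2) * (BA Z Y).card + (1 / L ^ U) * (1 / 2) * (BA Z Y).card := add_le_add g1 g2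
    _ = (BA Z Y).card / L ^ U := by ring

end Pool.Agent.Q236.MR
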