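import Pool.Agent.Q236.MR.Marg

set_option autoImplicit false

/-!
# All systems of members of a random family, all intervals, all progressions
-/

namespace Pool.Agent.Q236.MR

open Finset Filter Polynomial
open Pool.Agent.Q236.RP (Box mem_Box ev_log_ge ev_pow_log)
open Pool.Agent.Q236.CG (BA mem_BA CZ evm)
open Pool.Agent.H373R2.T7 (pz mem_pz Vz)

variable {m d : ℕ}

open Classical in
/-- the number of the prime points with index in `(a, a + h]` -/
noncomputable def cntJ (F : Fin m → ℤ[X]) (c : Fin m → Fin d → ℤ) (J : Finset (Fin m)) (b q a h : ℕ) : ℕ :=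
  ((Ioc a (a + h)).filter (fun k => ∀ i ∈ J, (pv F c (b + q * k) i).toNat.Prime)).card

open Classical in
/-- the number of the bad residues -/
noncomputable def omJ (F : Fin m → ℤ[X]) (c : Fin m → Fin d → ℤ) (J : Finset (Fin m)) (b q p : ℕ) : ℕ :=
  ((range p).filter (fun k => ∃ i ∈ J, (p : ℤ) ∣ pv F c (b + q * k) i)).card

/-- the singular series -/
noncomputable def sgJ (F : Fin m → ℤ[X]) (c : Fin m → Fin d → ℤ) (J : Finset (Fin m)) (b q z : ℕ) : ℝ :=
  ∏ p ∈ pz z, ((1 - (omJ F c J b q p : ℝ) / p) / (1 - 1 / (p : ℝ)) ^ J.card)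

/-- the system of the members of `J` -/
lemma emb_all (J : Finset (Fin m)) (P : Fin m → Prop) : (∀ t, P (J.orderEmbOfFin rfl t)) ↔ ∀ i ∈ J, P i := by
  constructor
  · intro h i hi
    have : i ∈ Set.range (J.orderEmbOfFin rfl) := by
      rw [Finset.range_orderEmbOfFin]
      exact hi
    obtain ⟨t, rfl⟩ := this
    exact h t
  · intro h t
    exact h _ (Finset.orderEmbOfFin_mem J rfl t)

lemma cnt_emb (F : Fin m → ℤ[X]) (c : Fin m → Fin d → ℤ) (J : Finset (Fin m)) (b q a h : ℕ)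
    [DecidablePred fun k => ∀ t, (pv (fun t => F (J.orderEmbOfFin rfl t)) (fun t => c (J.orderEmbOfFin rfl t)) (b + q * k) t).toNat.Prime] :
    ((Ioc a (a + h)).filter (fun k => ∀ t, (pv (fun t => F (J.orderEmbOfFin rfl t)) (fun t => c (J.orderEmbOfFin rfl t))
      (b + q * k) t).toNat.Prime)).card = cntJ F c J b q a h := by
  classical
  unfold cntJ
  congr 1
  ext k
  simp only [mem_filter]
  apply and_congr_right
  intro _
  exact emb_all J (fun i => (pv F c (b + q * k) i).toNat.Prime)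

lemma om_emb (F : Fin m → ℤ[X]) (c : Fin m → Fin d → ℤ) (J : Finset (Fin m)) (b q p : ℕ) :
    omb b q (idF J.card) (fun t => F (J.orderEmbOfFin rfl t)) (fun t => c (J.orderEmbOfFin rfl t)) p = omJ F c J b q p := by
  classical
  unfold omb omJ
  congr 1
  ext k
  simp only [mem_filter]
  apply and_congr_right
  intro _
  unfold gd good
  have h1 := emb_all J (fun i => ¬ (p : ℤ) ∣ pv F c (b + q * k) i)
  have h2 : (∀ t, ¬ (p : ℤ) ∣ fv (idF J.card) (pv (fun t => F (J.orderEmbOfFin rfl t)) (fun t => c (J.orderEmbOfFin rfl t))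
      (b + q * k)) t) ↔ ∀ t, ¬ (p : ℤ) ∣ pv F c (b + q * k) (J.orderEmbOfFin rfl t) := by
    apply forall_congr'
    intro t
    rw [fv_id]
    rfl
  rw [h2, h1]
  push Not
  rfl

lemma sg_emb (F : Fin m → ℤ[X]) (c : Fin m → Fin d → ℤ) (J : Finset (Fin m)) (b q z : ℕ) :
    PQ b q (idF J.card) (fun t => F (J.orderEmbOfFin rfl t)) z (fun t => c (J.orderEmbOfFin rfl t)) / Vz z ^ J.card =
      sgJ F c J b q z := by
  unfold PQ sgJ Vz
  rw [← Finset.prod_pow, ← Finset.prod_div_distrib]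
  apply Finset.prod_congr rfl
  intro p _
  rw [om_emb]

open Classical in
/-- **All systems, all intervals, all progressions.** -/
theorem all_main (N B E : ℕ) (η : ℝ) (hη : 0 < η) : ∃ d0 : ℕ, ∀ C d : ℕ, d0 ≤ d → ∃ A0 : ℕ, ∀ (A D : ℕ) (ε : ℝ), 0 < ε →
    ∀ᶠ X : ℕ in atTop, ∀ z : ℕ, Real.log X ^ A0 ≤ z → (z : ℝ) ≤ Real.log X ^ A → ∀ m : ℕ, (m : ℝ) ≤ Real.log X ^ E →
    ∀ (F : Fin m → ℤ[X]) (Z : Fin m → Fin d → ℤ) (Y : Fin m → Fin d → ℕ), (∀ i, (F i).natDegree ≤ D) →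
    (∀ i j, (X : ℝ) / Real.log X ^ C ≤ Y i j) →
    (∀ i, ∀ b ∈ Box (Z i) (Y i), ∀ k : ℕ, 1 ≤ k → (k : ℝ) ≤ Real.log X ^ E →
      (X : ℝ) / Real.log X ^ C ≤ evm (fun k => (F i).eval (k : ℤ)) 1 b k ∧
      (evm (fun k => (F i).eval (k : ℤ)) 1 b k : ℝ) ≤ X * Real.log X ^ C) →
    (((BA Z Y).filter (fun c => ∃ J : Finset (Fin m), 1 ≤ J.card ∧ J.card ≤ N ∧ ∃ b q a h : ℕ, 1 ≤ q ∧
      ((b + q * (a + h) : ℕ) : ℝ) ≤ Real.log X ^ E ∧ Real.log X ^ ((J.card : ℝ) + η) ≤ h ∧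
      ¬ |(cntJ F c J b q a h : ℝ) - sgJ F c J b q z * (h / Real.log X ^ J.card)| ≤
        ε * (sgJ F c J b q z * (h / Real.log X ^ J.card)))).card : ℝ) ≤ (BA Z Y).card / Real.log X ^ B := by
  obtain ⟨B', hB'⟩ : ∃ B', B' = B + 1 + E * N + (4 * E + 4) := ⟨_, rfl⟩
  have hm : ∀ n : ℕ, ∃ d0 : ℕ, 1 ≤ n → ∀ D A' C d : ℕ, d0 ≤ d → d ≤ D + 1 → 1 ≤ C →
    ∀ ε : ℝ, 0 < ε → ∀ᶠ X : ℕ in atTop, ∀ b q z a h : ℕ, 1 ≤ q → (z : ℝ) ≤ Real.log X ^ A' → Real.log X ^ (C * d) ≤ z →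
    Real.log X ^ ((n : ℝ) + η) ≤ h → ∀ (F : Fin n → ℤ[X]) (Z : Fin n → Fin d → ℤ) (Y : Fin n → Fin d → ℕ),
    (∀ i, (F i).natDegree ≤ D) → (∀ i, CZ C X (fun k => (F i).eval (k : ℤ)) 1 (Z i) (Y i) (ap b q a h)) →
    (((BA Z Y).filter (fun c => ¬ |(((Ioc a (a + h)).filter (fun k => ∀ i, (pv F c (b + q * k) i).toNat.Prime)).card : ℝ) -
      PQ b q (idF n) F z c / Vz z ^ n * (h / Real.log X ^ n)| ≤ ε * (PQ b q (idF n) F z c / Vz z ^ n * (h / Real.log X ^ n)))).card : ℝ) ≤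
      (BA Z Y).card / Real.log X ^ B' := by
    intro n
    by_cases hn : 1 ≤ n
    · obtain ⟨d0, h⟩ := mach n B' hn η hη
      exact ⟨d0, fun _ => h⟩
    · exact ⟨0, fun h => absurd h hn⟩
  choose d0 hd0 using hm
  refine ⟨(range (N + 1)).sup d0, ?_⟩
  intro C d hd
  obtain ⟨C', hC'⟩ : ∃ C', C' = C + E + 1 := ⟨_, rfl⟩
  refine ⟨C' * d, ?_⟩
  intro A D ε hε
  have hall : ∀ᶠ X : ℕ in atTop, ∀ n ∈ Icc 1 N, ∀ b q z a h : ℕ, 1 ≤ q → (z : ℝ) ≤ Real.log X ^ A → Real.log X ^ (C' * d) ≤ z →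
    Real.log X ^ ((n : ℝ) + η) ≤ h → ∀ (F : Fin n → ℤ[X]) (Z : Fin n → Fin d → ℤ) (Y : Fin n → Fin d → ℕ),
    (∀ i, (F i).natDegree ≤ max D d) → (∀ i, CZ C' X (fun k => (F i).eval (k : ℤ)) 1 (Z i) (Y i) (ap b q a h)) →
    (((BA Z Y).filter (fun c => ¬ |(((Ioc a (a + h)).filter (fun k => ∀ i, (pv F c (b + q * k) i).toNat.Prime)).card : ℝ) -
      PQ b q (idF n) F z c / Vz z ^ n * (h / Real.log X ^ n)| ≤ ε * (PQ b q (idF n) F z c / Vz z ^ n * (h / Real.log X ^ n)))).card : ℝ) ≤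
      (BA Z Y).card / Real.log X ^ B' := by
    rw [Filter.eventually_all_finset]
    intro n hn
    rw [mem_Icc] at hn
    apply hd0 n hn.1 (max D d) A C' d _ _ (by omega) ε hε
    · refine le_trans ?_ hd
      exact Finset.le_sup (f := d0) (mem_range.2 (by omega))
    · have := le_max_right D d
      omega
  filter_upwards [hall, ev_log_ge 2, ev_log_ge N] with X hall hL2 hLN z hzlow hzup m hm F Z Y hF hside hval
  obtain ⟨L, hL⟩ : ∃ L, L = Real.log (X : ℝ) := ⟨_, rfl⟩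
  rw [← hL] at hall hL2 hLN hzlow hzup hm hside hval ⊢
  have hL0 : 0 < L := by linarith
  have hL1 : 1 ≤ L := by linarith
  obtain ⟨W, hW⟩ : ∃ W, W = BA Z Y := ⟨_, rfl⟩
  obtain ⟨T, hT⟩ : ∃ T : ℕ, T = ⌊L ^ E⌋₊ := ⟨_, rfl⟩
  have hLE : (0 : ℝ) < L ^ E := by positivity
  have hTle : (T : ℝ) ≤ L ^ E := by rw [hT]; exact Nat.floor_le hLE.le
  obtain ⟨bad, hbad⟩ : ∃ bad : Finset (Fin m) → ℕ × ℕ × ℕ × ℕ → Finset (Fin m → Fin d → ℤ), bad = fun J x =>
    W.filter (fun c => 1 ≤ x.2.1 ∧ ((x.1 + x.2.1 * (x.2.2.1 + x.2.2.2) : ℕ) : ℝ) ≤ L ^ E ∧ L ^ ((J.card : ℝ) + η) ≤ x.2.2.2 ∧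
      ¬ |(cntJ F c J x.1 x.2.1 x.2.2.1 x.2.2.2 : ℝ) - sgJ F c J x.1 x.2.1 z * (x.2.2.2 / L ^ J.card)| ≤
        ε * (sgJ F c J x.1 x.2.1 z * (x.2.2.2 / L ^ J.card))) := ⟨_, rfl⟩
  obtain ⟨Q4, hQ4⟩ : ∃ Q4 : Finset (ℕ × ℕ × ℕ × ℕ), Q4 = range (T + 1) ×ˢ range (T + 1) ×ˢ range (T + 1) ×ˢ range (T + 1) := ⟨_, rfl⟩
  rw [← hW]
  have hsub : W.filter (fun c => ∃ J : Finset (Fin m), 1 ≤ J.card ∧ J.card ≤ N ∧ ∃ b q a h : ℕ, 1 ≤ q ∧
      ((b + q * (a + h) : ℕ) : ℝ) ≤ L ^ E ∧ L ^ ((J.card : ℝ) + η) ≤ h ∧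
      ¬ |(cntJ F c J b q a h : ℝ) - sgJ F c J b q z * (h / L ^ J.card)| ≤
        ε * (sgJ F c J b q z * (h / L ^ J.card))) ⊆
      (Icc 1 N).biUnion (fun n => (powersetCard n (univ : Finset (Fin m))).biUnion (fun J => Q4.biUnion (fun x => bad J x))) := by
    intro c hc
    rw [mem_filter] at hc
    obtain ⟨hcW, J, hJ1, hJN, b, q, a, h, hq, hbq, hh, hc⟩ := hc
    have hle : b + q * (a + h) ≤ T := by
      rw [hT]
      exact Nat.le_floor hbq
    have h1 : a + h ≤ q * (a + h) := Nat.le_mul_of_pos_left _ (by omega)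
    have hh0 : 1 ≤ h := by
      have h2 : (0 : ℝ) < h := lt_of_lt_of_le (Real.rpow_pos_of_pos hL0 _) hh
      exact_mod_cast h2
    have h3 : q ≤ q * (a + h) := Nat.le_mul_of_pos_right _ (by omega)
    rw [mem_biUnion]
    refine ⟨J.card, mem_Icc.2 ⟨hJ1, hJN⟩, ?_⟩
    rw [mem_biUnion]
    refine ⟨J, mem_powersetCard.2 ⟨subset_univ _, rfl⟩, ?_⟩
    rw [mem_biUnion]
    refine ⟨(b, q, a, h), ?_, ?_⟩
    · rw [hQ4, mem_product, mem_product, mem_product, mem_range, mem_range, mem_range, mem_range]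
      simp only
      exact ⟨by omega, by omega, by omega, by omega⟩
    · rw [hbad]
      simp only
      rw [mem_filter]
      exact ⟨hcW, hq, hbq, hh, hc⟩
  have hone : ∀ n ∈ Icc 1 N, ∀ J ∈ powersetCard n (univ : Finset (Fin m)), ∀ x ∈ Q4, ((bad J x).card : ℝ) ≤ W.card / L ^ B' := by
    intro n hn J hJ x _
    rw [mem_powersetCard] at hJ
    obtain ⟨b, q, a, h⟩ := x
    by_cases hx : 1 ≤ q ∧ ((b + q * (a + h) : ℕ) : ℝ) ≤ L ^ E ∧ L ^ ((J.card : ℝ) + η) ≤ h
    · obtain ⟨hq, hbq, hh⟩ := hx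
      have hn' : J.card ∈ Icc 1 N := by rw [hJ.2]; exact hn
      have hinj : Function.Injective (J.orderEmbOfFin rfl) := (J.orderEmbOfFin rfl).injective
      have hCZ : ∀ t, CZ C' X (fun k => (F (J.orderEmbOfFin rfl t)).eval (k : ℤ)) 1 (Z (J.orderEmbOfFin rfl t))
          (Y (J.orderEmbOfFin rfl t)) (ap b q a h) := by
        intro t
        have hpt : ∀ k ∈ ap b q a h, 1 ≤ k ∧ (k : ℝ) ≤ L ^ E := by
          intro k hk
          unfold ap at hk
          rw [mem_image] at hk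
          obtain ⟨l, hl, rfl⟩ := hk
          rw [mem_Ioc] at hl
          have h1 : l ≤ q * l := Nat.le_mul_of_pos_left _ (by omega)
          refine ⟨by omega, ?_⟩
          refine le_trans ?_ hbq
          have h2 : b + q * l ≤ b + q * (a + h) := Nat.add_le_add_left (Nat.mul_le_mul_left q hl.2) b
          exact_mod_cast h2
        have hCC : L ^ C ≤ L ^ C' := pow_le_pow_right₀ hL1 (by omega)
        have hEC : L ^ E ≤ L ^ C' := pow_le_pow_right₀ hL1 (by omega)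
        have hX0 : (0 : ℝ) ≤ X := Nat.cast_nonneg _
        have hdiv : (X : ℝ) / L ^ C' ≤ X / L ^ C := div_le_div_of_nonneg_left hX0 (by positivity) hCC
        constructor
        · intro j
          rw [← hL]
          exact hdiv.trans (hside _ j)
        · intro k hk
          rw [← hL]
          exact (hpt k hk).2.trans hEC
        · norm_num
        · rw [← hL, Int.cast_one, abs_one]
          exact one_le_pow₀ hL1
        · intro k hk b hb
          rw [← hL]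
          exact hdiv.trans (hval _ b hb k (hpt k hk).1 (hpt k hk).2).1
        · intro k hk b hb
          rw [← hL]
          exact (hval _ b hb k (hpt k hk).1 (hpt k hk).2).2.trans (mul_le_mul_of_nonneg_left hCC hX0)
      have h1 := hall J.card hn' b q z a h hq hzup hzlow hh (fun t => F (J.orderEmbOfFin rfl t))
        (fun t => Z (J.orderEmbOfFin rfl t)) (fun t => Y (J.orderEmbOfFin rfl t))
        (fun t => (hF _).trans (le_max_left _ _)) hCZ
      unfold BA at h1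
      have h2 := marg' (V := Fin d → ℤ) (fun i => Box (Z i) (Y i)) (J.orderEmbOfFin rfl) hinj (fun c =>
        ¬ |(((Ioc a (a + h)).filter (fun k => ∀ i, (pv (fun t => F (J.orderEmbOfFin rfl t)) c
            (b + q * k) i).toNat.Prime)).card : ℝ) - PQ b q (idF J.card) (fun t => F (J.orderEmbOfFin rfl t)) z
            c / Vz z ^ J.card * (h / L ^ J.card)| ≤
            ε * (PQ b q (idF J.card) (fun t => F (J.orderEmbOfFin rfl t)) z
            c / Vz z ^ J.card * (h / L ^ J.card))) (1 / L ^ B') (by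
          refine le_trans h1 (le_of_eq ?_)
          ring)
      rw [one_div_mul_eq_div] at h2
      rw [hbad, hW]
      unfold BA
      simp only
      refine le_trans ?_ h2
      have h3 : ∀ c : Fin m → Fin d → ℤ, (1 ≤ q ∧ ((b + q * (a + h) : ℕ) : ℝ) ≤ L ^ E ∧ L ^ ((J.card : ℝ) + η) ≤ h ∧
          ¬ |(cntJ F c J b q a h : ℝ) - sgJ F c J b q z * (h / L ^ J.card)| ≤ ε * (sgJ F c J b q z * (h / L ^ J.card))) →
          ¬ |(((Ioc a (a + h)).filter (fun k => ∀ i, (pv (fun t => F (J.orderEmbOfFin rfl t)) (fun t => c (J.orderEmbOfFin rfl t))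
            (b + q * k) i).toNat.Prime)).card : ℝ) - PQ b q (idF J.card) (fun t => F (J.orderEmbOfFin rfl t)) z
            (fun t => c (J.orderEmbOfFin rfl t)) / Vz z ^ J.card * (h / L ^ J.card)| ≤
            ε * (PQ b q (idF J.card) (fun t => F (J.orderEmbOfFin rfl t)) z
            (fun t => c (J.orderEmbOfFin rfl t)) / Vz z ^ J.card * (h / L ^ J.card)) := by
        rintro c ⟨_, _, _, h4⟩
        rw [cnt_emb F c J b q a h, sg_emb F c J b q z]
        exact h4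
      exact_mod_cast card_le_card (fun c hc => by
        rw [mem_filter] at hc ⊢
        exact ⟨hc.1, h3 c hc.2⟩)
    · have : bad J (b, q, a, h) = ∅ := by
        rw [hbad]
        simp only
        rw [filter_eq_empty_iff]
        rintro c _ ⟨h1, h2, h3, _⟩
        exact hx ⟨h1, h2, h3⟩
      rw [this, card_empty, Nat.cast_zero]
      positivity
  have hsum : (((Icc 1 N).biUnion (fun n => (powersetCard n (univ : Finset (Fin m))).biUnion (fun J => Q4.biUnion (fun x => bad J x)))).card : ℝ) ≤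
      N * (L ^ (E * N) * ((L ^ (E + 1)) ^ 4 * (W.card / L ^ B'))) := by
    have h1 : (((Icc 1 N).biUnion (fun n => (powersetCard n (univ : Finset (Fin m))).biUnion (fun J => Q4.biUnion (fun x => bad J x)))).card : ℝ) ≤
        ∑ n ∈ Icc 1 N, ∑ J ∈ powersetCard n (univ : Finset (Fin m)), ∑ x ∈ Q4, ((bad J x).card : ℝ) := by
      have : ((Icc 1 N).biUnion (fun n => (powersetCard n (univ : Finset (Fin m))).biUnion (fun J => Q4.biUnion (fun x => bad J x)))).card ≤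
          ∑ n ∈ Icc 1 N, ∑ J ∈ powersetCard n (univ : Finset (Fin m)), ∑ x ∈ Q4, (bad J x).card := by
        refine card_biUnion_le.trans (Finset.sum_le_sum fun n _ => ?_)
        refine card_biUnion_le.trans (Finset.sum_le_sum fun J _ => ?_)
        exact card_biUnion_le
      exact_mod_cast this
    refine h1.trans ?_
    have hQc : (Q4.card : ℝ) ≤ (L ^ (E + 1)) ^ 4 := by
      have h2 : Q4.card = (T + 1) ^ 4 := by
        rw [hQ4]
        simp only [card_product, card_range]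
        ring
      rw [h2]
      push_cast
      apply pow_le_pow_left₀ (by positivity)
      have h3 : (1 : ℝ) ≤ L ^ E := one_le_pow₀ hL1
      rw [pow_succ]
      nlinarith
    have hW0 : (0 : ℝ) ≤ W.card / L ^ B' := by positivity
    calc ∑ n ∈ Icc 1 N, ∑ J ∈ powersetCard n (univ : Finset (Fin m)), ∑ x ∈ Q4, ((bad J x).card : ℝ) ≤
        ∑ n ∈ Icc 1 N, ∑ J ∈ powersetCard n (univ : Finset (Fin m)), ((L ^ (E + 1)) ^ 4 * (W.card / L ^ B')) := by
          apply Finset.sum_le_sum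
          intro n hn
          apply Finset.sum_le_sum
          intro J hJ
          refine (Finset.sum_le_sum (hone n hn J hJ)).trans ?_
          rw [Finset.sum_const, nsmul_eq_mul]
          exact mul_le_mul_of_nonneg_right hQc hW0
      _ ≤ ∑ _n ∈ Icc 1 N, (L ^ (E * N) * ((L ^ (E + 1)) ^ 4 * (W.card / L ^ B'))) := by
          apply Finset.sum_le_sum
          intro n hn
          rw [Finset.sum_const, nsmul_eq_mul, card_powersetCard, card_univ, Fintype.card_fin]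
          apply mul_le_mul_of_nonneg_right _ (by positivity)
          rw [mem_Icc] at hn
          have h2 : ((m.choose n : ℕ) : ℝ) ≤ (m : ℝ) ^ n := by exact_mod_cast Nat.choose_le_pow m n
          have h3 : (m : ℝ) ^ n ≤ (L ^ E) ^ n := pow_le_pow_left₀ (Nat.cast_nonneg _) hm n
          have h4 : (L ^ E) ^ n ≤ (L ^ E) ^ N := pow_le_pow_right₀ (one_le_pow₀ hL1) hn.2
          rw [pow_mul]
          linarith
      _ = N * (L ^ (E * N) * ((L ^ (E + 1)) ^ 4 * (W.card / L ^ B'))) := by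
          rw [Finset.sum_const, Nat.card_Icc, Nat.add_sub_cancel, nsmul_eq_mul]
  have h5 := (Nat.cast_le (α := ℝ)).2 (card_le_card hsub)
  refine h5.trans (hsum.trans ?_)
  have hW0 : (0 : ℝ) ≤ W.card := Nat.cast_nonneg _
  have e1 : L ^ B' = L ^ B * (L * (L ^ (E * N) * (L ^ (E + 1)) ^ 4)) := by
    rw [hB', ← pow_mul, ← pow_add, ← pow_succ', ← pow_add]
    congr 1
    ring
  have hP : 0 < L ^ (E * N) * (L ^ (E + 1)) ^ 4 := by positivity
  rw [e1]
  calc (N : ℝ) * (L ^ (E * N) * ((L ^ (E + 1)) ^ 4 * (W.card / (L ^ B * (L * (L ^ (E * N) * (L ^ (E + 1)) ^ 4)))))) =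
      N / L * (W.card / L ^ B) := by field_simp
    _ ≤ 1 * (W.card / L ^ B) := by
        apply mul_le_mul_of_nonneg_right _ (by positivity)
        rw [div_le_one hL0]
        exact hLN
    _ = W.card / L ^ B := one_mul _

end Pool.Agent.Q236.MR
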