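import Pool.Agent.Q236.MR.LocC
import Pool.Agent.Q236.CG.Arr

set_option autoImplicit false

/-!
# Periodic conditions on arrays
-/

namespace Pool.Agent.Q236.MR

open Finset
open Pool.Agent.Q236.RP (Box mem_Box card_Box)
open Pool.Agent.Q236.CG (BA mem_BA)

variable {n d : ℕ}

lemma dvd_sub_emod (c m : ℤ) : m ∣ c - c % m := ⟨c / m, by have := Int.mul_ediv_add_emod c m; linarith⟩

lemma class_two (Z a : ℤ) (Y M : ℕ) (hM : 1 ≤ M) :
    |(((Ioc Z (Z + Y)).filter (fun x => (M : ℤ) ∣ x - a)).card : ℝ) - Y / M| ≤ 1 := by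
  have hM0 : (0 : ℤ) < M := by exact_mod_cast hM
  have hMr : (0 : ℝ) < M := by exact_mod_cast hM
  have hMq : (0 : ℚ) < M := by exact_mod_cast hM
  have e : (Ioc Z (Z + Y)).filter (fun x => (M : ℤ) ∣ x - a) = (Ioc Z (Z + Y)).filter (fun x => x ≡ a [ZMOD M]) := by
    apply Finset.filter_congr
    intro x _
    rw [← Int.modEq_comm, Int.modEq_iff_dvd]
  have h := Int.Ioc_filter_modEq_card Z (Z + Y) hM0 a
  rw [← e] at h
  obtain ⟨N, hN⟩ : ∃ N, N = ((Ioc Z (Z + Y)).filter (fun x => (M : ℤ) ∣ x - a)).card := ⟨_, rfl⟩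
  rw [← hN] at h ⊢
  obtain ⟨u, hu⟩ : ∃ u : ℚ, u = (((Z + Y : ℤ) : ℚ) - a) / (M : ℤ) := ⟨_, rfl⟩
  obtain ⟨v, hv⟩ : ∃ v : ℚ, v = ((Z : ℚ) - a) / (M : ℤ) := ⟨_, rfl⟩
  rw [← hu, ← hv] at h
  have huv : u - v = (Y : ℚ) / M := by
    rw [hu, hv, ← sub_div]
    push_cast
    congr 1
    ring
  have hY0 : (0 : ℚ) ≤ (Y : ℚ) / M := by positivity
  have h1 := Int.floor_le u
  have h2 := Int.lt_floor_add_one u
  have h3 := Int.floor_le v
  have h4 := Int.lt_floor_add_one v
  have hmono : ⌊v⌋ ≤ ⌊u⌋ := Int.floor_le_floor (by linarith)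
  rw [max_eq_left (by omega)] at h
  have hq : (N : ℚ) = (⌊u⌋ : ℚ) - ⌊v⌋ := by exact_mod_cast h
  have hk : |(N : ℚ) - Y / M| ≤ 1 := by
    rw [hq, ← huv, abs_le]
    constructor <;> linarith
  have : |((((N : ℚ) - Y / M : ℚ)) : ℝ)| ≤ 1 := by exact_mod_cast hk
  push_cast at this
  exact this

lemma prod_close {ι : Type*} (s : Finset ι) (x y : ι → ℝ) (hx : ∀ i ∈ s, 0 ≤ x i) (δ : ℝ) (hδ : 0 ≤ δ)
    (h : ∀ i ∈ s, |y i - x i| ≤ δ * x i) : |∏ i ∈ s, y i - ∏ i ∈ s, x i| ≤ ((1 + δ) ^ s.card - 1) * ∏ i ∈ s, x i := by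
  classical
  induction s using Finset.induction_on with
  | empty => simp
  | insert a s ha ih =>
    have ih' := ih (fun i hi => hx i (mem_insert_of_mem hi)) (fun i hi => h i (mem_insert_of_mem hi))
    rw [prod_insert ha, prod_insert ha, card_insert_of_notMem ha]
    obtain ⟨P, hP⟩ : ∃ P, P = ∏ i ∈ s, x i := ⟨_, rfl⟩
    obtain ⟨Q, hQ⟩ : ∃ Q, Q = ∏ i ∈ s, y i := ⟨_, rfl⟩
    have hP0 : 0 ≤ P := by rw [hP]; exact Finset.prod_nonneg fun i hi => hx i (mem_insert_of_mem hi)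
    rw [← hP, ← hQ] at ih' ⊢
    have hxa := hx a (mem_insert_self a s)
    have hya := h a (mem_insert_self a s)
    have h1 : |y a| ≤ (1 + δ) * x a := by
      have := abs_sub_abs_le_abs_sub (y a) (x a)
      rw [abs_of_nonneg hxa] at this
      linarith
    have e : y a * Q - x a * P = y a * (Q - P) + (y a - x a) * P := by ring
    rw [e]
    refine (abs_add_le _ _).trans ?_
    rw [abs_mul, abs_mul, abs_of_nonneg hP0]
    have hpow : (1 : ℝ) ≤ (1 + δ) ^ s.card := one_le_pow₀ (by linarith)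
    have h2 : |y a| * |Q - P| ≤ ((1 + δ) * x a) * (((1 + δ) ^ s.card - 1) * P) :=
      mul_le_mul h1 ih' (abs_nonneg _) (by positivity)
    have h3 : |y a - x a| * P ≤ δ * x a * P := mul_le_mul_of_nonneg_right hya hP0
    have e2 : ((1 + δ) * x a) * (((1 + δ) ^ s.card - 1) * P) + δ * x a * P = ((1 + δ) ^ (s.card + 1) - 1) * (x a * P) := by
      rw [pow_succ]
      ring
    linarith

lemma pow_small (δ : ℝ) (hδ : 0 ≤ δ) (N : ℕ) (hN : N * δ ≤ 1) : (1 + δ) ^ N - 1 ≤ 2 * (N * δ) := by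
  have h1 : (1 + δ) ^ N ≤ Real.exp (N * δ) := by
    have h2 : 1 + δ ≤ Real.exp δ := by
      have := Real.add_one_le_exp δ
      linarith
    calc (1 + δ) ^ N ≤ (Real.exp δ) ^ N := pow_le_pow_left₀ (by linarith) h2 N
      _ = Real.exp (N * δ) := by rw [← Real.exp_nat_mul]
  have hNδ : 0 ≤ N * δ := by positivity
  have h3 := Real.abs_exp_sub_one_le (x := N * δ) (by rw [abs_of_nonneg hNδ]; exact hN)
  rw [abs_of_nonneg hNδ] at h3
  have h4 := (abs_le.1 h3).2
  linarith

/-- periodicity -/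
def Per (m : ℕ) (P : (Fin n → Fin d → ℤ) → Prop) : Prop := ∀ c c', (∀ i j, (m : ℤ) ∣ c i j - c' i j) → (P c ↔ P c')

lemma card_BA_real (Z : Fin n → Fin d → ℤ) (Y : Fin n → Fin d → ℕ) : ((BA Z Y).card : ℝ) = ∏ i, ∏ j, (Y i j : ℝ) := by
  unfold BA
  rw [Fintype.card_piFinset]
  push_cast
  apply Finset.prod_congr rfl
  intro i _
  rw [card_Box]
  push_cast
  rfl

open Classical in
lemma ba_class (Z : Fin n → Fin d → ℤ) (Y : Fin n → Fin d → ℕ) (m : ℕ) (a : Fin n → Fin d → ℤ) :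
    (((BA Z Y).filter (fun c => ∀ i j, (m : ℤ) ∣ c i j - a i j)).card : ℝ) =
      ∏ i, ∏ j, (((Ioc (Z i j) (Z i j + Y i j)).filter (fun x => (m : ℤ) ∣ x - a i j)).card : ℝ) := by
  have h : (BA Z Y).filter (fun c => ∀ i j, (m : ℤ) ∣ c i j - a i j) =
      Fintype.piFinset fun i => Fintype.piFinset fun j => (Ioc (Z i j) (Z i j + Y i j)).filter (fun x => (m : ℤ) ∣ x - a i j) := by
    ext c
    rw [mem_filter, mem_BA]
    simp only [Fintype.mem_piFinset, mem_filter, mem_Ioc, mem_Box]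
    constructor
    · rintro ⟨h1, h2⟩ i j
      exact ⟨h1 i j, h2 i j⟩
    · intro h
      exact ⟨fun i j => (h i j).1, fun i j => (h i j).2⟩
  rw [h, Fintype.card_piFinset]
  push_cast
  apply Finset.prod_congr rfl
  intro i _
  rw [Fintype.card_piFinset]
  push_cast
  rfl

open Classical in
/-- the number of arrays of a box with a periodic property -/
theorem box_per (Z : Fin n → Fin d → ℤ) (Y : Fin n → Fin d → ℕ) (m : ℕ) (hm : 1 ≤ m) (P : (Fin n → Fin d → ℤ) → Prop)
    (hP : Per m P) (δ : ℝ) (hδ : 0 ≤ δ) (hY : ∀ i j, (m : ℝ) ≤ δ * Y i j) (hδ1 : (n * d : ℕ) * δ ≤ 1) :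
    |(((BA Z Y).filter P).card : ℝ) - (BA Z Y).card * ((((Om n d m).filter P).card : ℝ) / (Om n d m).card)| ≤
      2 * ((n * d : ℕ) * δ) * (BA Z Y).card := by
  have hm0 : (0 : ℤ) < m := by exact_mod_cast hm
  have hmr : (0 : ℝ) < m := by exact_mod_cast hm
  have hOm := Om_pos (n := n) (d := d) m hm
  have hmod : ∀ c : Fin n → Fin d → ℤ, (fun i j => c i j % (m : ℤ)) ∈ Om n d m := by
    intro c
    rw [mem_Om]
    intro i j
    exact ⟨Int.emod_nonneg _ hm0.ne', Int.emod_lt_of_pos _ hm0⟩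
  have h1 : (((BA Z Y).filter P).card : ℝ) = ∑ a ∈ (Om n d m).filter P,
      (((BA Z Y).filter (fun c => ∀ i j, (m : ℤ) ∣ c i j - a i j)).card : ℝ) := by
    rw [Finset.card_eq_sum_card_fiberwise (f := fun c i j => c i j % (m : ℤ)) (t := (Om n d m).filter P)]
    · push_cast
      apply Finset.sum_congr rfl
      intro a ha
      rw [mem_filter] at ha
      congr 2
      ext c
      simp only [mem_filter]
      constructor
      · rintro ⟨⟨h1, _⟩, h2⟩
        refine ⟨h1, ?_⟩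
        intro i j
        rw [← h2]
        exact dvd_sub_emod _ _
      · rintro ⟨h1, h2⟩
        refine ⟨⟨h1, (hP c a h2).2 ha.2⟩, ?_⟩
        funext i j
        have h3 := (mem_Om m a).1 ha.1 i j
        have h4 : c i j ≡ a i j [ZMOD m] := ((Int.modEq_iff_dvd).2 (h2 i j)).symm
        rw [h4.eq]
        exact Int.emod_eq_of_lt h3.1 h3.2
    · intro c hc
      rw [mem_coe, mem_filter] at hc ⊢
      refine ⟨hmod c, (hP _ _ ?_).1 hc.2⟩
      intro i j
      exact dvd_sub_emod _ _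
  obtain ⟨x, hx⟩ : ∃ x : Fin n × Fin d → ℝ, x = fun z => (Y z.1 z.2 : ℝ) / m := ⟨_, rfl⟩
  have hprod : ∏ z, x z = (BA Z Y).card / (Om n d m).card := by
    rw [card_BA_real, card_Om, Fintype.prod_prod_type, hx]
    simp only
    have : ((((m ^ d) ^ n : ℕ)) : ℝ) = ∏ _i : Fin n, ∏ _j : Fin d, (m : ℝ) := by
      simp
    rw [this, ← Finset.prod_div_distrib]
    apply Finset.prod_congr rfl
    intro i _
    rw [← Finset.prod_div_distrib]
  have h2 : ∀ a : Fin n → Fin d → ℤ, |(((BA Z Y).filter (fun c => ∀ i j, (m : ℤ) ∣ c i j - a i j)).card : ℝ) - (BA Z Y).card / (Om n d m).card| ≤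
      2 * ((n * d : ℕ) * δ) * ((BA Z Y).card / (Om n d m).card) := by
    intro a
    rw [ba_class, ← hprod]
    have e : ∏ i, ∏ j, (((Ioc (Z i j) (Z i j + Y i j)).filter (fun x => (m : ℤ) ∣ x - a i j)).card : ℝ) =
        ∏ z : Fin n × Fin d, (((Ioc (Z z.1 z.2) (Z z.1 z.2 + Y z.1 z.2)).filter (fun x => (m : ℤ) ∣ x - a z.1 z.2)).card : ℝ) := by
      rw [Fintype.prod_prod_type]
    rw [e]
    have hx0 : ∀ z, 0 ≤ x z := by intro z; rw [hx]; positivity
    have h3 := prod_close univ x (fun z : Fin n × Fin d => (((Ioc (Z z.1 z.2) (Z z.1 z.2 + Y z.1 z.2)).filter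
      (fun x => (m : ℤ) ∣ x - a z.1 z.2)).card : ℝ)) (fun z _ => hx0 z) δ hδ (by
        intro z _
        have h4 := class_two (Z z.1 z.2) (a z.1 z.2) (Y z.1 z.2) m hm
        rw [hx]
        refine h4.trans ?_
        simp only
        rw [mul_div_assoc', le_div_iff₀ hmr, one_mul]
        exact hY z.1 z.2)
    refine h3.trans ?_
    have hx1 : 0 ≤ ∏ z, x z := Finset.prod_nonneg fun z _ => hx0 z
    apply mul_le_mul_of_nonneg_right _ hx1
    rw [card_univ, Fintype.card_prod, Fintype.card_fin, Fintype.card_fin]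
    exact pow_small δ hδ _ hδ1
  have h3 : (((BA Z Y).filter P).card : ℝ) - (BA Z Y).card * ((((Om n d m).filter P).card : ℝ) / (Om n d m).card) =
      ∑ a ∈ (Om n d m).filter P, ((((BA Z Y).filter (fun c => ∀ i j, (m : ℤ) ∣ c i j - a i j)).card : ℝ) -
        (BA Z Y).card / (Om n d m).card) := by
    rw [Finset.sum_sub_distrib, ← h1, Finset.sum_const, nsmul_eq_mul]
    ring
  rw [h3]
  refine (Finset.abs_sum_le_sum_abs _ _).trans ((Finset.sum_le_sum fun a _ => h2 a).trans ?_)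
  rw [Finset.sum_const, nsmul_eq_mul]
  have h4 : (((Om n d m).filter P).card : ℝ) ≤ (Om n d m).card := by exact_mod_cast card_filter_le _ _
  have h5 : (0 : ℝ) ≤ 2 * ((n * d : ℕ) * δ) * ((BA Z Y).card / (Om n d m).card) := by positivity
  calc (((Om n d m).filter P).card : ℝ) * (2 * ((n * d : ℕ) * δ) * ((BA Z Y).card / (Om n d m).card)) ≤
      (Om n d m).card * (2 * ((n * d : ℕ) * δ) * ((BA Z Y).card / (Om n d m).card)) := mul_le_mul_of_nonneg_right h4 h5
    _ = 2 * ((n * d : ℕ) * δ) * (BA Z Y).card := by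
        field_simp

/-- the Chinese remainder theorem -/
lemma crt_two (a b : ℕ) (ha : 1 ≤ a) (hb : 1 ≤ b) (hab : a.Coprime b) (P Q : (Fin n → Fin d → ℤ) → Prop) (hP : Per a P) (hQ : Per b Q)
    [DecidablePred P] [DecidablePred Q] [DecidablePred fun c => P c ∧ Q c] :
    ((Om n d (a * b)).filter (fun c => P c ∧ Q c)).card = ((Om n d a).filter P).card * ((Om n d b).filter Q).card := by
  have ha0 : (0 : ℤ) < a := by exact_mod_cast ha
  have hb0 : (0 : ℤ) < b := by exact_mod_cast hb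
  obtain ⟨f, hf⟩ : ∃ f : (Fin n → Fin d → ℤ) → (Fin n → Fin d → ℤ) × (Fin n → Fin d → ℤ),
      f = fun c => (fun i j => c i j % (a : ℤ), fun i j => c i j % (b : ℤ)) := ⟨_, rfl⟩
  have hf1 : ∀ c, (f c).1 ∈ Om n d a := by
    intro c
    rw [hf, mem_Om]
    intro i j
    exact ⟨Int.emod_nonneg _ ha0.ne', Int.emod_lt_of_pos _ ha0⟩
  have hf2 : ∀ c, (f c).2 ∈ Om n d b := by
    intro c
    rw [hf, mem_Om]
    intro i j
    exact ⟨Int.emod_nonneg _ hb0.ne', Int.emod_lt_of_pos _ hb0⟩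
  have hinj : Set.InjOn f (Om n d (a * b)) := by
    intro c hc c' hc' hcc
    rw [mem_coe, mem_Om] at hc hc'
    rw [hf] at hcc
    simp only [Prod.mk.injEq] at hcc
    funext i j
    have h1 : c i j ≡ c' i j [ZMOD a] := congrFun (congrFun hcc.1 i) j
    have h2 : c i j ≡ c' i j [ZMOD b] := congrFun (congrFun hcc.2 i) j
    have h3 : c i j ≡ c' i j [ZMOD (a * b : ℕ)] := by
      push_cast
      exact (Int.modEq_and_modEq_iff_modEq_mul (by simpa using hab)).1 ⟨h1, h2⟩
    have h4 := hc i j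
    have h5 := hc' i j
    have h6 := h3.eq
    rwa [Int.emod_eq_of_lt h4.1 h4.2, Int.emod_eq_of_lt h5.1 h5.2] at h6
  have himg : (Om n d (a * b)).image f = Om n d a ×ˢ Om n d b := by
    apply Finset.eq_of_subset_of_card_le
    · intro z hz
      rw [mem_image] at hz
      obtain ⟨c, _, rfl⟩ := hz
      exact mem_product.2 ⟨hf1 c, hf2 c⟩
    · rw [card_product, card_image_of_injOn hinj, card_Om, card_Om, card_Om]
      apply le_of_eq
      rw [← mul_pow, ← mul_pow]
  have hPf : ∀ c, P c ↔ P (f c).1 := by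
    intro c
    apply hP
    intro i j
    rw [hf]
    exact dvd_sub_emod _ _
  have hQf : ∀ c, Q c ↔ Q (f c).2 := by
    intro c
    apply hQ
    intro i j
    rw [hf]
    exact dvd_sub_emod _ _
  have h1 : ((Om n d (a * b)).filter (fun c => P c ∧ Q c)).card = (((Om n d (a * b)).filter (fun c => P c ∧ Q c)).image f).card := by
    rw [card_image_of_injOn]
    exact hinj.mono (by
      intro c hc
      rw [mem_coe, mem_filter] at hc
      exact hc.1)
  rw [h1, ← card_product]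
  congr 1
  ext z
  rw [mem_image, mem_product, mem_filter, mem_filter]
  constructor
  · rintro ⟨c, hc, rfl⟩
    rw [mem_filter] at hc
    exact ⟨⟨hf1 c, (hPf c).1 hc.2.1⟩, ⟨hf2 c, (hQf c).1 hc.2.2⟩⟩
  · rintro ⟨⟨h2, h3⟩, ⟨h4, h5⟩⟩
    have h6 : z ∈ (Om n d (a * b)).image f := by
      rw [himg, mem_product]
      exact ⟨h2, h4⟩
    rw [mem_image] at h6
    obtain ⟨c, hc, rfl⟩ := h6
    exact ⟨c, mem_filter.2 ⟨hc, (hPf c).2 h3, (hQf c).2 h5⟩, rfl⟩

open Classical in
/-- several primes -/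
lemma crt_many (E : ℕ → (Fin n → Fin d → ℤ) → Prop) (hE : ∀ p, Per p (E p)) (S : Finset ℕ) (hS : ∀ p ∈ S, p.Prime) :
    (((Om n d (∏ p ∈ S, p)).filter (fun c => ∀ p ∈ S, E p c)).card : ℝ) / (Om n d (∏ p ∈ S, p)).card =
      ∏ p ∈ S, ((((Om n d p).filter (fun c => E p c)).card : ℝ) / (Om n d p).card) := by
  induction S using Finset.induction_on with
  | empty =>
    have h1 : ((Om n d (∏ p ∈ (∅ : Finset ℕ), p)).filter (fun c => ∀ p ∈ (∅ : Finset ℕ), E p c)) = Om n d (∏ p ∈ (∅ : Finset ℕ), p) := by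
      apply Finset.filter_true_of_mem
      intro c _ p hp
      exact absurd hp (notMem_empty p)
    rw [h1, prod_empty, prod_empty]
    exact div_self (Om_pos (n := n) (d := d) 1 Nat.one_pos).ne'
  | insert q S hq ih =>
    have hS' : ∀ p ∈ S, p.Prime := fun p hp => hS p (mem_insert_of_mem hp)
    have hqp := hS q (mem_insert_self q S)
    rw [prod_insert hq, prod_insert hq, ← ih hS']
    obtain ⟨m, hm⟩ : ∃ m, m = ∏ p ∈ S, p := ⟨_, rfl⟩
    have hm1 : 1 ≤ m := by
      rw [hm]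
      exact Nat.pos_of_ne_zero (Finset.prod_ne_zero_iff.2 fun p hp => (hS' p hp).ne_zero)
    have hcop : q.Coprime m := by
      rw [hm]
      apply Nat.Coprime.prod_right
      intro p hp
      exact (Nat.coprime_primes hqp (hS' p hp)).2 (fun h => hq (h ▸ hp))
    have hPer : Per m (fun c : Fin n → Fin d → ℤ => ∀ p ∈ S, E p c) := by
      intro c c' hcc
      have : ∀ p ∈ S, (E p c ↔ E p c') := by
        intro p hp
        apply hE p
        intro i j
        refine Dvd.dvd.trans ?_ (hcc i j)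
        rw [hm]
        exact_mod_cast Finset.dvd_prod_of_mem _ hp
      constructor
      · intro h p hp
        exact (this p hp).1 (h p hp)
      · intro h p hp
        exact (this p hp).2 (h p hp)
    rw [← hm]
    have h1 := crt_two (n := n) (d := d) q m hqp.one_lt.le hm1 hcop (E q) (fun c => ∀ p ∈ S, E p c) (hE q) hPer
    have h2 : (Om n d (q * m)).filter (fun c => ∀ p ∈ insert q S, E p c) = (Om n d (q * m)).filter (fun c => E q c ∧ ∀ p ∈ S, E p c) := by
      apply Finset.filter_congr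
      intro c _
      simp only [mem_insert, forall_eq_or_imp]
    rw [h2, h1]
    have h3 : (Om n d (q * m)).card = (Om n d q).card * (Om n d m).card := by
      rw [card_Om, card_Om, card_Om, mul_pow, mul_pow]
    rw [h3]
    push_cast
    rw [mul_div_mul_comm]

end Pool.Agent.Q236.MR
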