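import Pool.Agent.Q236.MR.Cnt

set_option autoImplicit false

/-!
# From the surviving points to the prime points
-/

namespace Pool.Agent.Q236.MR

open Finset Filter Polynomial
open Pool.Agent.Q236.RP (ev_log_ge ev_pow_log ev_loglog)
open Pool.Agent.Q236.CG (BA mem_BA mi pri pri_nonneg pri_le)
open Pool.Agent.H373R2.T7 (pz mem_pz Vz Vz_pos Vz_le_one lamz nuB PerB)

variable {n d e : ℕ}

lemma log_close (C : ℕ) (θ : ℝ) (hθ : 0 < θ) : ∀ᶠ X : ℕ in atTop, ∀ v : ℝ, (X : ℝ) / Real.log X ^ C ≤ v →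
    v ≤ X * Real.log X ^ C → 0 < Real.log v ∧ |1 / Real.log v - 1 / Real.log X| ≤ θ * (1 / Real.log X) := by
  obtain ⟨θ', hθ'⟩ : ∃ θ' : ℝ, θ' = min θ 1 / 2 := ⟨_, rfl⟩
  have hθ'0 : 0 < θ' := by rw [hθ']; positivity
  have hθ'1 : θ' ≤ 1 / 2 := by
    rw [hθ']
    have := min_le_right θ 1
    linarith
  have hθ'2 : 2 * θ' ≤ θ := by
    rw [hθ']
    have := min_le_left θ 1
    linarith
  filter_upwards [ev_log_ge 2, ev_loglog C θ' hθ'0, ev_pow_log (C + 1)] with X hL2 hll hP v hv1 hv2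
  obtain ⟨L, hL⟩ : ∃ L, L = Real.log (X : ℝ) := ⟨_, rfl⟩
  rw [← hL] at hL2 hll hP hv1 hv2 ⊢
  have hL0 : 0 < L := by linarith
  have hLp : ∀ j : ℕ, 0 < L ^ j := fun j => by positivity
  have hXp : (0 : ℝ) < X := lt_of_lt_of_le (hLp _) hP
  have hv0 : 0 < v := lt_of_lt_of_le (by positivity) hv1
  have h1 := Real.log_le_log (by positivity) hv1
  have h2 := Real.log_le_log hv0 hv2
  rw [Real.log_div hXp.ne' (hLp C).ne', Real.log_pow, ← hL] at h1
  rw [Real.log_mul hXp.ne' (hLp C).ne', Real.log_pow, ← hL] at h2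
  have h3 : L / 2 ≤ Real.log v := by nlinarith
  have h4 : 0 < Real.log v := by linarith
  refine ⟨h4, ?_⟩
  rw [div_sub_div _ _ h4.ne' hL0.ne', one_mul, mul_one, abs_div, abs_of_pos (mul_pos h4 hL0), div_le_iff₀ (mul_pos h4 hL0)]
  have h5 : |L - Real.log v| ≤ θ' * L := by
    rw [abs_le]
    constructor <;> linarith
  refine h5.trans ?_
  have h6 : θ * (1 / L) * (Real.log v * L) = θ * Real.log v := by field_simp
  rw [h6]
  nlinarith

open Classical in
/-- **The prime points, from the surviving points and the model.** -/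
theorem core (n e D d A' C : ℕ) (he : 1 ≤ e) (hD : d ≤ D + 1) (η ε : ℝ) (hη : 0 < η) (hε : 0 < ε) : ∀ᶠ X : ℕ in atTop,
    ∀ b q z a h : ℕ, (z : ℝ) ≤ Real.log X ^ A' → Real.log X ≤ z → Real.log X ^ ((e : ℝ) + η) ≤ h →
    ∀ (A : Forms n e) (F : Fin n → ℤ[X]) (c : Fin n → Fin d → ℤ), (∀ i, (F i).natDegree ≤ D) →
    (∀ k ∈ Ioc a (a + h), ∀ t, (X : ℝ) / Real.log X ^ C ≤ fv A (pv F c (b + q * k)) t ∧ (fv A (pv F c (b + q * k)) t : ℝ) ≤ X * Real.log X ^ C) →
    |∑ k ∈ Ioc a (a + h), ∏ t, pri (fv A (pv F c (b + q * k)) t) - ∑ k ∈ Ioc a (a + h), ∏ t, mi z (fv A (pv F c (b + q * k)) t)| ≤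
      Real.log X ^ (η / 4) * Real.sqrt (1 + h / Real.log X ^ e) →
    |((Sv b q A F (Ioc a (a + h)) (pz z) c).card : ℝ) - h * PQ b q A F z c| ≤ min ε 1 / 4 * (h * PQ b q A F z c) →
    |(((Ioc a (a + h)).filter (fun k => ∀ t, (fv A (pv F c (b + q * k)) t).toNat.Prime)).card : ℝ) -
      PQ b q A F z c / Vz z ^ e * (h / Real.log X ^ e)| ≤ ε * (PQ b q A F z c / Vz z ^ e * (h / Real.log X ^ e)) := by
  obtain ⟨τ, hτ⟩ : ∃ τ : ℝ, τ = min ε 1 / 4 := ⟨_, rfl⟩
  have hτ0 : 0 < τ := by rw [hτ]; positivity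
  have hτ1 : τ ≤ 1 / 4 := by
    rw [hτ]
    have := min_le_right ε 1
    linarith
  have hτε : 4 * τ ≤ ε := by
    rw [hτ]
    have := min_le_left ε 1
    linarith
  obtain ⟨C1, y1, hlow⟩ := PP_low (2 * (e * D) + 1)
  have he0 : (0 : ℝ) < e := by exact_mod_cast he
  obtain ⟨θ, hθ⟩ : ∃ θ : ℝ, θ = τ / (2 * e) := ⟨_, rfl⟩
  have hθ0 : 0 < θ := by rw [hθ]; positivity
  have hA1 : (1 : ℝ) ≤ (A' : ℝ) + 1 := by have : (0 : ℝ) ≤ A' := Nat.cast_nonneg _; linarith
  filter_upwards [log_close C θ hθ0, ev_log_ge 3, ev_log_ge y1, ev_pow_log (A' + C + 1),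
    ev_ll (η / 4) (by positivity) C1 (τ / (2 * ((A' : ℝ) + 1) ^ C1)) (by positivity)] with X hlog hL3 hLy1 hP hll
    b q z a h hz hLz hh A F c hF hval hcg hcnt
  rw [← hτ] at hcnt
  obtain ⟨L, hL⟩ : ∃ L, L = Real.log (X : ℝ) := ⟨_, rfl⟩
  rw [← hL] at hlog hL3 hLy1 hP hll hz hLz hh hval hcg ⊢
  have hL0 : 0 < L := by linarith
  have hL1 : 1 ≤ L := by linarith
  have hLp : ∀ j : ℕ, 0 < L ^ j := fun j => by positivity
  have hXp : (0 : ℝ) < X := lt_of_lt_of_le (hLp _) hP
  obtain ⟨I, hI⟩ : ∃ I, I = Ioc a (a + h) := ⟨_, rfl⟩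
  rw [← hI] at hval hcg hcnt ⊢
  have hz1 : 1 ≤ z := by
    have : (1 : ℝ) ≤ z := hL1.trans hLz
    exact_mod_cast this
  have hz0 : (0 : ℝ) < z := by exact_mod_cast hz1
  -- values are larger than `z`
  have hbigv : (z : ℝ) < X / L ^ C := by
    rw [lt_div_iff₀ (hLp _)]
    calc (z : ℝ) * L ^ C ≤ L ^ A' * L ^ C := mul_le_mul_of_nonneg_right hz (hLp _).le
      _ < L ^ A' * L ^ C * L := by
          have : 0 < L ^ A' * L ^ C := by positivity
          nlinarith
      _ = L ^ (A' + C + 1) := by rw [pow_succ, pow_add]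
      _ ≤ X := hP
  have hvpos : ∀ k ∈ I, ∀ t, 0 < fv A (pv F c (b + q * k)) t := by
    intro k hk t
    have h1 := (hval k hk t).1
    have : (0 : ℝ) < (fv A (pv F c (b + q * k)) t : ℝ) := by
      have h2 : (0 : ℝ) < X / L ^ C := by positivity
      linarith
    exact_mod_cast this
  have hnat : ∀ k ∈ I, ∀ t, (((fv A (pv F c (b + q * k)) t).toNat : ℕ) : ℝ) = fv A (pv F c (b + q * k)) t := by
    intro k hk t
    have : (((fv A (pv F c (b + q * k)) t).toNat : ℕ) : ℤ) = fv A (pv F c (b + q * k)) t := Int.toNat_of_nonneg (hvpos k hk t).le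
    exact_mod_cast this
  have hdvd : ∀ k ∈ I, ∀ t, ∀ p : ℕ, p ∣ (fv A (pv F c (b + q * k)) t).toNat ↔ (p : ℤ) ∣ fv A (pv F c (b + q * k)) t := by
    intro k hk t p
    rw [← Int.natCast_dvd_natCast, Int.toNat_of_nonneg (hvpos k hk t).le]
  -- the count
  obtain ⟨N1, hN1⟩ : ∃ N1 : ℝ, N1 = ((I.filter (fun k => ∀ t, (fv A (pv F c (b + q * k)) t).toNat.Prime)).card : ℝ) := ⟨_, rfl⟩
  have hN1s : ∑ k ∈ I, ∏ t, pri (fv A (pv F c (b + q * k)) t) = N1 := by
    rw [hN1, Finset.card_filter]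
    push_cast
    apply Finset.sum_congr rfl
    intro k _
    unfold pri
    rw [Finset.prod_boole]
    simp
  rw [hN1s] at hcg
  rw [← hN1]
  have hV0 := Vz_pos z
  have hV1 := Vz_le_one z
  obtain ⟨S, hS⟩ : ∃ S : ℝ, S = ((Sv b q A F I (pz z) c).card : ℝ) := ⟨_, rfl⟩
  rw [← hS] at hcnt
  have hS0 : 0 ≤ S := by rw [hS]; exact Nat.cast_nonneg _
  obtain ⟨P, hPd⟩ : ∃ P, P = PQ b q A F z c := ⟨_, rfl⟩
  rw [← hPd] at hcnt ⊢
  have hP0 : 0 ≤ P := by rw [hPd]; exact PQ_nonneg b q A F z c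
  obtain ⟨T, hT⟩ : ∃ T, T = P / Vz z ^ e * (h / L ^ e) := ⟨_, rfl⟩
  rw [← hT]
  have hT0 : 0 ≤ T := by rw [hT]; positivity
  by_cases hnd : ∀ p ∈ pz z, ndq b q A F p c
  swap
  · push Not at hnd
    obtain ⟨p, hp, hndp⟩ := hnd
    have hPz : P = 0 := by rw [hPd]; exact PQ_zero b q A F z c p hp hndp
    have hTz : T = 0 := by rw [hT, hPz]; simp
    have hNz : N1 = 0 := by
      rw [hN1, Nat.cast_eq_zero, card_eq_zero, filter_eq_empty_iff]
      intro k hk hpr
      apply hndp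
      refine ⟨k, ?_⟩
      intro t ht
      have h1 := (hdvd k hk t p).2 ht
      have h2 := (Nat.prime_dvd_prime_iff_eq (mem_pz.1 hp).2 (hpr t)).1 h1
      have h3 : (p : ℝ) ≤ z := by exact_mod_cast (mem_pz.1 hp).1
      have h4 := (hval k hk t).1
      rw [← hnat k hk t, ← h2] at h4
      linarith
    rw [hTz, hNz]
    simp
  · -- the model
    have hM : |∑ k ∈ I, ∏ t, mi z (fv A (pv F c (b + q * k)) t) - S / Vz z ^ e * (1 / L ^ e)| ≤ τ * (S / Vz z ^ e * (1 / L ^ e)) := by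
      have e1 : ∑ k ∈ I, ∏ t, mi z (fv A (pv F c (b + q * k)) t) =
          ∑ k ∈ Sv b q A F I (pz z) c, (1 / Vz z ^ e) * ∏ t, (1 / Real.log (fv A (pv F c (b + q * k)) t)) := by
        unfold Sv
        rw [Finset.sum_filter]
        apply Finset.sum_congr rfl
        intro k hk
        by_cases hg : ∀ p ∈ pz z, gd b q A F p c k
        · rw [if_pos hg]
          have h1 : ∀ t, mi z (fv A (pv F c (b + q * k)) t) = (1 / Vz z) * (1 / Real.log (fv A (pv F c (b + q * k)) t)) := by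
            intro t
            unfold mi lamz
            rw [if_pos, hnat k hk t]
            · rw [one_div, div_eq_mul_one_div]
            · intro p hp hpd
              exact hg p hp t ((hdvd k hk t p).1 hpd)
          rw [Finset.prod_congr rfl (fun t _ => h1 t), Finset.prod_mul_distrib, Finset.prod_const, card_univ, Fintype.card_fin,
            one_div_pow]
        · rw [if_neg hg]
          push Not at hg
          obtain ⟨p, hp, hb⟩ := hg
          unfold gd good at hb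
          push Not at hb
          obtain ⟨t, ht⟩ := hb
          apply Finset.prod_eq_zero (mem_univ t)
          unfold mi lamz
          rw [if_neg, zero_div]
          intro h1
          exact h1 p hp ((hdvd k hk t p).2 ht)
      have e2 : S / Vz z ^ e * (1 / L ^ e) = ∑ _k ∈ Sv b q A F I (pz z) c, (1 / Vz z ^ e) * (1 / L ^ e) := by
        rw [Finset.sum_const, nsmul_eq_mul, hS]
        ring
      rw [e1]
      nth_rewrite 1 [e2]
      rw [← Finset.sum_sub_distrib]
      refine (Finset.abs_sum_le_sum_abs _ _).trans ?_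
      have e3 : ∀ k ∈ Sv b q A F I (pz z) c, |(1 / Vz z ^ e) * ∏ t, (1 / Real.log (fv A (pv F c (b + q * k)) t)) - (1 / Vz z ^ e) * (1 / L ^ e)| ≤
          τ * ((1 / Vz z ^ e) * (1 / L ^ e)) := by
        intro k hk
        have hkI : k ∈ I := by
          unfold Sv at hk
          exact (mem_filter.1 hk).1
        rw [← mul_sub, abs_mul, abs_of_pos (by positivity : 0 < 1 / Vz z ^ e)]
        have h1 := prod_close (univ : Finset (Fin e)) (fun _ => 1 / L) (fun t => 1 / Real.log (fv A (pv F c (b + q * k)) t))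
          (fun _ _ => by positivity) θ hθ0.le (fun t _ => (hlog _ (hval k hkI t).1 (hval k hkI t).2).2)
        rw [Finset.prod_const, card_univ, Fintype.card_fin, one_div_pow] at h1
        have h2 : (1 + θ) ^ e - 1 ≤ τ := by
          have h3 : (e : ℝ) * θ = τ / 2 := by rw [hθ]; field_simp
          have h4 := pow_small θ hθ0.le e (by rw [h3]; linarith)
          rw [h3] at h4
          linarith
        have h5 : |∏ t, (1 / Real.log (fv A (pv F c (b + q * k)) t)) - 1 / L ^ e| ≤ τ * (1 / L ^ e) := by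
          refine h1.trans ?_
          exact mul_le_mul_of_nonneg_right h2 (by positivity)
        calc 1 / Vz z ^ e * |∏ t, (1 / Real.log (fv A (pv F c (b + q * k)) t)) - 1 / L ^ e| ≤ 1 / Vz z ^ e * (τ * (1 / L ^ e)) :=
              mul_le_mul_of_nonneg_left h5 (by positivity)
          _ = τ * ((1 / Vz z ^ e) * (1 / L ^ e)) := by ring
      refine (Finset.sum_le_sum e3).trans (le_of_eq ?_)
      rw [e2, Finset.sum_const, Finset.sum_const, nsmul_eq_mul, nsmul_eq_mul]
      ring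
    -- `S` and `h P`
    have hST : |S / Vz z ^ e * (1 / L ^ e) - T| ≤ τ * T := by
      have e1 : S / Vz z ^ e * (1 / L ^ e) - T = (1 / (Vz z ^ e * L ^ e)) * (S - h * P) := by
        rw [hT]
        field_simp
      rw [e1, abs_mul, abs_of_pos (by positivity : 0 < 1 / (Vz z ^ e * L ^ e))]
      calc 1 / (Vz z ^ e * L ^ e) * |S - h * P| ≤ 1 / (Vz z ^ e * L ^ e) * (τ * (h * P)) :=
            mul_le_mul_of_nonneg_left hcnt (by positivity)
        _ = τ * T := by
            rw [hT]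
            field_simp
    have hper := Qc_per b q A F D hF hD c
    have l2 := hlow z (by
      have : (y1 : ℝ) ≤ z := hLy1.trans hLz
      exact_mod_cast this) (Qc b q A F c) hper (fun p hp => nuB_lt b q A F c p (mem_pz.1 hp).2 (hnd p hp))
    rw [← PQ_eq b q A F z c hnd, ← hPd] at l2
    have hlz0 : 0 < Real.log z := by
      apply Real.log_pos
      have : (3 : ℝ) ≤ z := hL3.trans hLz
      linarith
    -- the error of the model
    have herr : L ^ (η / 4) * Real.sqrt (1 + h / L ^ e) ≤ τ * T := by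
      obtain ⟨H, hH⟩ : ∃ H : ℝ, H = h / L ^ e := ⟨_, rfl⟩
      rw [← hH]
      have hHη : L ^ η ≤ H := by
        rw [hH, le_div_iff₀ (hLp _), ← Real.rpow_natCast, ← Real.rpow_add hL0, add_comm]
        exact hh
      have hLη1 : 1 ≤ L ^ η := Real.one_le_rpow hL1 hη.le
      have hH1 : 1 ≤ H := by linarith
      have hsq : Real.sqrt (1 + H) ≤ 2 * Real.sqrt H := by
        rw [Real.sqrt_le_left (by positivity), mul_pow, Real.sq_sqrt (by linarith)]
        linarith
      have hsH : L ^ (η / 2) ≤ Real.sqrt H := by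
        apply Real.le_sqrt_of_sq_le
        rw [← Real.rpow_natCast, ← Real.rpow_mul hL0.le]
        refine le_trans (le_of_eq ?_) hHη
        congr 1
        push_cast
        ring
      have hlz : Real.log z ≤ (A' + 1) * Real.log L := by
        have h1 : Real.log z ≤ Real.log (L ^ A') := Real.log_le_log hz0 hz
        rw [Real.log_pow] at h1
        have h2 : 0 ≤ Real.log L := Real.log_nonneg hL1
        linarith
      have hlzC : 2 * Real.log z ^ C1 ≤ τ * L ^ (η / 4) := by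
        have h1 : Real.log z ^ C1 ≤ ((A' : ℝ) + 1) ^ C1 * Real.log L ^ C1 := by
          rw [← mul_pow]
          exact pow_le_pow_left₀ hlz0.le hlz _
        have h2 : ((A' : ℝ) + 1) ^ C1 * Real.log L ^ C1 ≤ ((A' : ℝ) + 1) ^ C1 * (τ / (2 * ((A' : ℝ) + 1) ^ C1) * L ^ (η / 4)) :=
          mul_le_mul_of_nonneg_left hll (by positivity)
        have h3 : ((A' : ℝ) + 1) ^ C1 * (τ / (2 * ((A' : ℝ) + 1) ^ C1) * L ^ (η / 4)) = τ / 2 * L ^ (η / 4) := by
          have : ((A' : ℝ) + 1) ^ C1 ≠ 0 := by positivity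
          field_simp
        linarith
      have hTge : H / Real.log z ^ C1 ≤ T := by
        have h1 : T = P / Vz z ^ e * H := by rw [hT, hH]
        rw [h1, div_eq_mul_one_div, mul_comm]
        apply mul_le_mul_of_nonneg_right _ (by linarith)
        refine l2.trans ?_
        rw [le_div_iff₀ (by positivity)]
        have : Vz z ^ e ≤ 1 := pow_le_one₀ hV0.le hV1
        nlinarith
      have hsq0 : 0 < Real.sqrt H := Real.sqrt_pos.2 (by linarith)
      have hHs : Real.sqrt H * Real.sqrt H = H := Real.mul_self_sqrt (by linarith)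
      have hLq : 0 < L ^ (η / 4) := Real.rpow_pos_of_pos hL0 _
      have h2q : L ^ (η / 4) * L ^ (η / 4) = L ^ (η / 2) := by
        rw [← Real.rpow_add hL0]
        congr 1
        ring
      calc L ^ (η / 4) * Real.sqrt (1 + H) ≤ L ^ (η / 4) * (2 * Real.sqrt H) := mul_le_mul_of_nonneg_left hsq hLq.le
        _ ≤ τ * (H / Real.log z ^ C1) := by
            rw [mul_div_assoc', le_div_iff₀ (by positivity)]
            calc L ^ (η / 4) * (2 * Real.sqrt H) * Real.log z ^ C1 = (L ^ (η / 4) * Real.sqrt H) * (2 * Real.log z ^ C1) := by ring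
              _ ≤ (L ^ (η / 4) * Real.sqrt H) * (τ * L ^ (η / 4)) := mul_le_mul_of_nonneg_left hlzC (by positivity)
              _ = τ * (L ^ (η / 4) * L ^ (η / 4)) * Real.sqrt H := by ring
              _ = τ * L ^ (η / 2) * Real.sqrt H := by rw [h2q]
              _ ≤ τ * Real.sqrt H * Real.sqrt H := by
                  apply mul_le_mul_of_nonneg_right _ hsq0.le
                  exact mul_le_mul_of_nonneg_left hsH hτ0.le
              _ = τ * H := by rw [mul_assoc, hHs]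
        _ ≤ τ * T := mul_le_mul_of_nonneg_left hTge hτ0.le
    obtain ⟨M1, hM1⟩ : ∃ M1, M1 = ∑ k ∈ I, ∏ t, mi z (fv A (pv F c (b + q * k)) t) := ⟨_, rfl⟩
    obtain ⟨R, hR⟩ : ∃ R, R = S / Vz z ^ e * (1 / L ^ e) := ⟨_, rfl⟩
    rw [← hM1] at hM hcg
    rw [← hR] at hM hST
    have h1 := abs_le.1 (hcg.trans herr)
    have h2 := abs_le.1 hM
    have h3 := abs_le.1 hST
    have hR2 : R ≤ 2 * T := by nlinarith [h3.2]
    have hτR : τ * R ≤ τ * (2 * T) := mul_le_mul_of_nonneg_left hR2 hτ0.le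
    have h4 : 4 * τ * T ≤ ε * T := mul_le_mul_of_nonneg_right hτε hT0
    rw [abs_le]
    constructor <;> linarith [h1.1, h1.2, h2.1, h2.2, h3.1, h3.2]

end Pool.Agent.Q236.MR
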