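import Pool.Agent.Q236.MR.Trans

set_option autoImplicit false

/-!
# Large deviations of the sieve by medium primes are rare
-/

namespace Pool.Agent.Q236.MR

open Finset Filter Polynomial
open Pool.Agent.Q236.RP (Box mem_Box card_Box ev_log_ge ev_pow_log)
open Pool.Agent.Q236.CG (BA mem_BA)
open Pool.Agent.H373R2.T7 (pz mem_pz sum_pz_le)

variable {n d e : ℕ}

open Classical in
/-- the density of the good residues, for all numbers -/
noncomputable def rho (A : Forms n e) (p : ℕ) : ℝ := if h : p.Prime then (haveI := Fact.mk h; max (1 / 2) (qd p A)) else 1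

lemma rho_pos (A : Forms n e) (p : ℕ) : 0 < rho A p := by
  unfold rho
  split_ifs with h
  · exact lt_of_lt_of_le (by norm_num) (le_max_left _ _)
  · norm_num

lemma rho_le (A : Forms n e) (p : ℕ) : rho A p ≤ 1 := by
  unfold rho
  split_ifs with h
  · haveI := Fact.mk h
    exact max_le (by norm_num) (qd_le_one p A)
  · exact le_rfl

lemma rho_eq (A : Forms n e) (p : ℕ) [hp : Fact p.Prime] (h : 1 / 2 ≤ qd p A) : rho A p = qd p A := by
  unfold rho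
  rw [dif_pos hp.out]
  exact max_eq_right h

lemma rho_ge (A : Forms n e) (p : ℕ) (hp : p.Prime) (hs : ¬ ∃ t, (p : ℤ) ∣ A.s t) : 1 - e / (p : ℝ) ≤ rho A p := by
  haveI := Fact.mk hp
  unfold rho
  rw [dif_pos hp]
  refine le_trans (qd_ge p A ?_) (le_max_right _ _)
  intro t h0
  rw [ZMod.intCast_zmod_eq_zero_iff_dvd] at h0
  exact hs ⟨t, h0⟩

/-- the sum of `1 / p ^ 2` -/
lemma sum_md_sq (y z q : ℕ) (hy : 1 ≤ y) : ∑ p ∈ md y z q, 1 / (p : ℝ) ^ 2 ≤ 1 / (y : ℝ) := by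
  rcases Nat.lt_or_ge z y with hzy | hyz
  · have : md y z q = ∅ := by
      ext p
      rw [mem_md]
      simp only [notMem_empty, iff_false, not_and]
      intro h1 h2
      omega
    rw [this, Finset.sum_empty]
    positivity
  · have h1 : md y z q ⊆ Ioc y z := by
      intro p hp
      rw [mem_md] at hp
      rw [mem_Ioc]
      exact ⟨hp.2.1, hp.1.1⟩
    have h2 := sum_Ioc_inv_sq_le_sub (α := ℝ) (by omega : y ≠ 0) hyz
    calc ∑ p ∈ md y z q, 1 / (p : ℝ) ^ 2 ≤ ∑ p ∈ Ioc y z, 1 / (p : ℝ) ^ 2 :=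
          Finset.sum_le_sum_of_subset_of_nonneg h1 fun _ _ _ => by positivity
      _ = ∑ p ∈ Ioc y z, ((p : ℝ) ^ 2)⁻¹ := by
          apply Finset.sum_congr rfl
          intro p _
          rw [one_div]
      _ ≤ (y : ℝ)⁻¹ - (z : ℝ)⁻¹ := h2
      _ ≤ 1 / (y : ℝ) := by
          have : (0 : ℝ) ≤ (z : ℝ)⁻¹ := by positivity
          rw [one_div]
          linarith

open Classical in
/-- the moment of the model -/
lemma model_moment (A : Forms n e) (F : Fin n → ℤ[X]) (D : ℕ) (hF : ∀ i, (F i).natDegree ≤ D) (hD : d ≤ D + 1) (hd : 2 ≤ d)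
    (b q y z s0 a h : ℕ) (hy1 : 1 ≤ y) (hyD : e * D ≤ y) (hye : 2 * e ≤ y) (hs0 : s0 ≤ y)
    (hs : ∀ t, ∀ p : ℕ, p.Prime → (p : ℤ) ∣ A.s t → p ≤ s0) (hh : (y : ℝ) * (1 + Real.log z) ≤ h) (hz : 1 ≤ z)
    (w : ℝ) (hq0 : 0 < w) (hq : w ^ 4 = y) (K0 : ℝ) (hK0 : K0 = 4 * e * (D + 1) + 1) (S : Finset ℕ) (hS : S ⊆ Ioc a (a + h)) (s : ℕ) :
    TT (Om n d) (nd A F) (gd b q A F) (md y z q).toList (fun S' => ((S'.card : ℝ) / (∏ p ∈ md y z q, rho A p) - S.card) ^ (2 * s)) S ≤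
      2 * (2 * s).factorial * Real.exp (5 * e) * (K0 * h / (w ^ 2 * ∏ p ∈ md y z q, rho A p)) ^ (2 * s) := by
  have hyr : (1 : ℝ) ≤ y := by exact_mod_cast hy1
  have hlz : 0 ≤ Real.log z := Real.log_nonneg (by exact_mod_cast hz)
  have hhy : (y : ℝ) ≤ h := by nlinarith
  have hh0 : (0 : ℝ) < h := by linarith
  have hK1 : 1 ≤ K0 := by rw [hK0]; have : (0 : ℝ) ≤ 4 * e * (D + 1) := by positivity
                          linarith
  have hq1 : 1 ≤ w := by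
    by_contra hlt
    push Not at hlt
    have : w ^ 4 < 1 := pow_lt_one₀ hq0.le hlt (by norm_num)
    linarith
  have hq2 : 0 < w ^ 2 := by positivity
  obtain ⟨U, hU⟩ : ∃ U : ℝ, U = w ^ 2 / (K0 * h) := ⟨_, rfl⟩
  have hU0 : 0 < U := by rw [hU]; positivity
  have hstep : ∀ σ : ℝ, |σ| = 1 → ∀ p ∈ (md y z q).toList, ∀ S1 ⊆ Ioc a (a + h), ∀ v : ℝ, 0 ≤ v → v ≤ U →
      (∑ c ∈ (Om n d p).filter (fun c => nd A F p c), Real.exp (σ * v * (((S1.filter (fun k => gd b q A F p c k)).card : ℝ) / rho A p - S1.card))) /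
        (Om n d p).card ≤ Real.exp (e / (p : ℝ) ^ 2 * (U * h) + U ^ 2 * (2 * e / p * (h * (h / p + 1)))) := by
    intro σ hσ p hp S1 hS1 v hv0 hvU
    rw [Finset.mem_toList, mem_md] at hp
    obtain ⟨⟨hpz, hpp⟩, hpy, hpq⟩ := hp
    haveI := Fact.mk hpp
    have hbq : (q : ZMod p) ≠ 0 := by
      rw [Ne, ZMod.natCast_eq_zero_iff]
      exact hpq
    have hp0 : (0 : ℝ) < p := by exact_mod_cast hpp.pos
    have hpyr : (y : ℝ) ≤ p := by exact_mod_cast hpy.le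
    have hst : ∀ t, (A.s t : ZMod p) ≠ 0 := by
      intro t h0
      rw [ZMod.intCast_zmod_eq_zero_iff_dvd] at h0
      have := hs t p hpp h0
      omega
    have hqd : 1 / 2 ≤ qd p A := by
      refine le_trans ?_ (qd_ge p A hst)
      have h1 : (e : ℝ) / p ≤ 1 / 2 := by
        rw [div_le_iff₀ hp0]
        have : (2 * e : ℝ) ≤ y := by exact_mod_cast hye
        linarith
      linarith
    rw [rho_eq A p hqd]
    apply step_exp p A F D hF hD (by omega) hst hd hqd a h S1 hS1 b q hbq σ U v hσ hv0 hvU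
    have h1 : (h : ℝ) / p + 1 ≤ 2 * h / y := by
      have h2 : (h : ℝ) / p ≤ h / y := div_le_div_of_nonneg_left hh0.le (by linarith) hpyr
      have h3 : (1 : ℝ) ≤ h / y := by rw [le_div_iff₀ (by linarith)]; linarith
      have h4 : 2 * (h : ℝ) / y = h / y + h / y := by ring
      linarith
    have h5 : (0 : ℝ) ≤ 2 * e * (D + 1) := by positivity
    calc U * (2 * e * (D + 1) * (h / p + 1)) ≤ U * (2 * e * (D + 1) * (2 * h / y)) :=
          mul_le_mul_of_nonneg_left (mul_le_mul_of_nonneg_left h1 h5) hU0.le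
      _ = (4 * e * (D + 1)) / (K0 * w ^ 2) := by
          rw [hU, ← hq]
          field_simp
          ring
      _ ≤ 1 := by
          rw [div_le_one (by positivity)]
          have h6 : 4 * (e : ℝ) * (D + 1) ≤ K0 := by rw [hK0]; linarith
          have h7 : 1 ≤ w ^ 2 := one_le_pow₀ hq1
          nlinarith
  have h1 := TT_moment (Om n d) (nd A F) (gd b q A F) (rho A) (rho_pos A) (rho_le A) U hU0
    (fun p => e / (p : ℝ) ^ 2 * (U * h) + U ^ 2 * (2 * e / p * (h * (h / p + 1)))) (Ioc a (a + h)) (md y z q).toList hstep S hS s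
  rw [Finset.prod_map_toList, Finset.sum_map_toList] at h1
  refine h1.trans ?_
  obtain ⟨r, hr⟩ : ∃ r, r = ∏ p ∈ md y z q, rho A p := ⟨_, rfl⟩
  have hr0 : 0 < r := by rw [hr]; exact Finset.prod_pos fun p _ => rho_pos A p
  rw [← hr]
  have hUr : U * r = w ^ 2 * r / (K0 * h) := by rw [hU]; ring
  have hinv : (K0 * h / (w ^ 2 * r)) ^ (2 * s) = 1 / (U * r) ^ (2 * s) := by
    rw [hUr, one_div, ← inv_pow, inv_div]
  have hsumE : ∑ p ∈ md y z q, (e / (p : ℝ) ^ 2 * (U * h) + U ^ 2 * (2 * e / p * (h * (h / p + 1)))) ≤ 5 * (e : ℝ) := by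
    have e1 : ∀ p ∈ md y z q, e / (p : ℝ) ^ 2 * (U * h) + U ^ 2 * (2 * e / p * (h * (h / p + 1))) =
        (e * (U * h) + 2 * e * (U * h) ^ 2) * (1 / (p : ℝ) ^ 2) + 2 * e * (U ^ 2 * h) * (1 / (p : ℝ)) := by
      intro p hp
      rw [mem_md] at hp
      have hp0 : (0 : ℝ) < p := by exact_mod_cast hp.1.2.pos
      field_simp
      ring
    rw [Finset.sum_congr rfl e1, Finset.sum_add_distrib, ← Finset.mul_sum, ← Finset.mul_sum]
    have e2 := sum_md_sq y z q hy1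
    have e3 : ∑ p ∈ md y z q, 1 / (p : ℝ) ≤ 1 + Real.log z := by
      refine le_trans ?_ (sum_pz_le z)
      exact Finset.sum_le_sum_of_subset_of_nonneg (filter_subset _ _) fun _ _ _ => by positivity
    have hUh : U * h = w ^ 2 / K0 := by rw [hU]; field_simp
    have hUhle : U * h ≤ w ^ 2 := by
      rw [hUh]
      exact div_le_self hq2.le hK1
    have hUh0 : 0 ≤ U * h := by positivity
    have hUh2 : (U * h) ^ 2 ≤ y := by
      calc (U * h) ^ 2 ≤ (w ^ 2) ^ 2 := pow_le_pow_left₀ hUh0 hUhle 2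
        _ = y := by rw [← pow_mul, hq]
    have hqy : w ^ 2 ≤ y := by
      rw [← hq]
      exact pow_le_pow_right₀ hq1 (by norm_num)
    have e4 : (e * (U * h) + 2 * e * (U * h) ^ 2) * ∑ p ∈ md y z q, 1 / (p : ℝ) ^ 2 ≤ 3 * e := by
      have h2 : (e * (U * h) + 2 * e * (U * h) ^ 2) ≤ 3 * e * y := by
        have h3 : (e : ℝ) * (U * h) ≤ e * y := mul_le_mul_of_nonneg_left (hUhle.trans hqy) (Nat.cast_nonneg _)
        have h4 : 2 * (e : ℝ) * (U * h) ^ 2 ≤ 2 * e * y := mul_le_mul_of_nonneg_left hUh2 (by positivity)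
        linarith
      calc (e * (U * h) + 2 * e * (U * h) ^ 2) * ∑ p ∈ md y z q, 1 / (p : ℝ) ^ 2 ≤ 3 * e * y * (1 / y) :=
            mul_le_mul h2 e2 (Finset.sum_nonneg fun _ _ => by positivity) (by positivity)
        _ = 3 * e := by field_simp
    have e5 : 2 * e * (U ^ 2 * h) * ∑ p ∈ md y z q, 1 / (p : ℝ) ≤ 2 * e := by
      have h2 : U ^ 2 * (h : ℝ) ≤ y / h := by
        rw [le_div_iff₀ hh0]
        calc U ^ 2 * (h : ℝ) * h = (U * h) ^ 2 := by ring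
          _ ≤ (y : ℝ) := hUh2
      calc 2 * e * (U ^ 2 * h) * ∑ p ∈ md y z q, 1 / (p : ℝ) ≤ 2 * e * (y / h) * (1 + Real.log z) :=
            mul_le_mul (mul_le_mul_of_nonneg_left h2 (by positivity)) e3 (Finset.sum_nonneg fun _ _ => by positivity) (by positivity)
        _ = 2 * e * ((y * (1 + Real.log z)) / h) := by ring
        _ ≤ 2 * e * 1 := by
            apply mul_le_mul_of_nonneg_left _ (by positivity)
            rw [div_le_one hh0]
            exact hh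
        _ = 2 * e := mul_one _
    linarith
  have hexp : Real.exp (∑ p ∈ md y z q, (e / (p : ℝ) ^ 2 * (U * h) + U ^ 2 * (2 * e / p * (h * (h / p + 1))))) ≤ Real.exp (5 * e) :=
    Real.exp_le_exp.2 hsumE
  rw [hinv, mul_one_div]
  apply div_le_div_of_nonneg_right _ (by positivity)
  exact mul_le_mul_of_nonneg_left hexp (by positivity)

open Classical in
/-- **Large deviations are rare.** -/
theorem few_dev (n d e D A' C s0 t : ℕ) (hd : 2 ≤ d) (hD : d ≤ D + 1) : ∃ Kt : ℝ, 0 < Kt ∧ ∀ᶠ X : ℕ in atTop,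
    ∀ b q y z a h : ℕ, (z : ℝ) ≤ Real.log X ^ A' → y ≤ z → 1 ≤ y → e * D ≤ y → 2 * e ≤ y → s0 ≤ y → (y : ℝ) ≤ Real.log X →
    (y : ℝ) * (1 + Real.log z) ≤ h →
    ∀ (Z : Fin n → Fin d → ℤ) (Y : Fin n → Fin d → ℕ), (∀ i j, (X : ℝ) / Real.log X ^ C ≤ Y i j) →
    ∀ (A : Forms n e) (F : Fin n → ℤ[X]), (∀ i, (F i).natDegree ≤ D) →
    (∀ t, ∀ p : ℕ, p.Prime → (p : ℤ) ∣ A.s t → p ≤ s0) →
    (((BA Z Y).filter (fun c => (∀ p ∈ md y z q, nd A F p c) ∧ (h : ℝ) / (y : ℝ) ^ (1 / 4 : ℝ) <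
      |((Sv b q A F (Ioc a (a + h)) (pz y ∪ md y z q) c).card : ℝ) - (∏ p ∈ md y z q, rho A p) * (Sv b q A F (Ioc a (a + h)) (pz y) c).card|)).card : ℝ) ≤
      Kt / (y : ℝ) ^ t * (BA Z Y).card := by
  obtain ⟨K0, hK0⟩ : ∃ K0 : ℝ, K0 = 4 * e * (D + 1) + 1 := ⟨_, rfl⟩
  have hK1 : 1 ≤ K0 := by rw [hK0]; have : (0 : ℝ) ≤ 4 * e * (D + 1) := by positivity
                          linarith
  obtain ⟨K1, hK1d⟩ : ∃ K1 : ℝ, K1 = 2 * (2 * (2 * t)).factorial * Real.exp (5 * e) := ⟨_, rfl⟩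
  have hK10 : 0 ≤ K1 := by rw [hK1d]; positivity
  refine ⟨K1 * K0 ^ (2 * (2 * t)) + 2 ^ (2 * (2 * t)), by positivity, ?_⟩
  filter_upwards [box_moment n d e D A' C (2 * t) s0 (2 * t) hd hD, ev_log_ge 1] with X hmom hL1 b q y z a h hz hyz hy1 hyD hye hs0 hyL hh
    Z Y hY A F hF hs
  obtain ⟨L, hL⟩ : ∃ L, L = Real.log (X : ℝ) := ⟨_, rfl⟩
  rw [← hL] at hmom hL1 hz hyL hY
  have hL0 : 0 < L := by linarith
  have hyr : (1 : ℝ) ≤ y := by exact_mod_cast hy1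
  have hy0 : (0 : ℝ) < y := by linarith
  obtain ⟨w, hq⟩ : ∃ w : ℝ, w = (y : ℝ) ^ (1 / 4 : ℝ) := ⟨_, rfl⟩
  have hq0 : 0 < w := by rw [hq]; positivity
  have hq4 : w ^ 4 = y := by
    rw [hq, ← Real.rpow_natCast, ← Real.rpow_mul hy0.le]
    norm_num
  obtain ⟨r, hr⟩ : ∃ r, r = ∏ p ∈ md y z q, rho A p := ⟨_, rfl⟩
  have hr0 : 0 < r := by rw [hr]; exact Finset.prod_pos fun p _ => rho_pos A p
  have hr1 : r ≤ 1 := by rw [hr]; exact Finset.prod_le_one (fun p _ => (rho_pos A p).le) fun p _ => rho_le A p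
  have hz1 : 1 ≤ z := by omega
  have hlz : 0 ≤ Real.log z := Real.log_nonneg (by exact_mod_cast hz1)
  have hhy : (y : ℝ) ≤ h := by nlinarith
  have hh0 : (0 : ℝ) < h := by linarith
  rw [← hr, ← hq]
  obtain ⟨I, hI⟩ : ∃ I, I = Ioc a (a + h) := ⟨_, rfl⟩
  have hIc : (I.card : ℝ) = h := by
    rw [hI, Nat.card_Ioc, Nat.add_sub_cancel_left]
  obtain ⟨K, hK⟩ : ∃ K : ℝ, K = K1 * (K0 * h / (w ^ 2 * r)) ^ (2 * (2 * t)) := ⟨_, rfl⟩
  have h1 := hmom b q y z hz hyz hyD hs0 Z Y hY A F hF hs I r hr0 hr1 K (by rw [hK]; positivity) (by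
    intro S1 hS1
    rw [hI] at hS1
    have := model_moment A F D hF hD hd b q y z s0 a h hy1 hyD hye hs0 hs hh hz1 w hq0 hq4 K0 hK0 S1 hS1 (2 * t)
    rw [← hr, ← hK1d, ← hK] at this
    exact this)
  rw [← hI]
  obtain ⟨W, hW⟩ : ∃ W, W = BA Z Y := ⟨_, rfl⟩
  rw [← hW] at h1 ⊢
  rw [hIc] at h1
  obtain ⟨T, hT⟩ : ∃ T : ℝ, T = h / (w * r) := ⟨_, rfl⟩
  have hT0 : 0 < T := by rw [hT]; positivity
  obtain ⟨x, hx⟩ : ∃ x : (Fin n → Fin d → ℤ) → ℝ, x = fun c => ((Sv b q A F I (pz y ∪ md y z q) c).card : ℝ) / r - (Sv b q A F I (pz y) c).card := ⟨_, rfl⟩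
  have hsub : W.filter (fun c => (∀ p ∈ md y z q, nd A F p c) ∧ (h : ℝ) / w < |((Sv b q A F I (pz y ∪ md y z q) c).card : ℝ) - r * (Sv b q A F I (pz y) c).card|) ⊆
      (W.filter (fun c => ∀ p ∈ md y z q, nd A F p c)).filter (fun c => T ≤ |x c|) := by
    intro c hc
    rw [mem_filter] at hc
    rw [mem_filter, mem_filter]
    refine ⟨⟨hc.1, hc.2.1⟩, ?_⟩
    have h2 : x c = (((Sv b q A F I (pz y ∪ md y z q) c).card : ℝ) - r * (Sv b q A F I (pz y) c).card) / r := by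
      rw [hx]
      field_simp
    rw [h2, abs_div, abs_of_pos hr0, hT, le_div_iff₀ hr0]
    have h3 : (h : ℝ) / (w * r) * r = h / w := by field_simp
    rw [h3]
    exact hc.2.2.le
  have h2 : (((W.filter (fun c => ∀ p ∈ md y z q, nd A F p c)).filter (fun c => T ≤ |x c|)).card : ℝ) * T ^ (2 * (2 * t)) ≤
      ∑ c ∈ W.filter (fun c => ∀ p ∈ md y z q, nd A F p c), (x c) ^ (2 * (2 * t)) := by
    rw [← nsmul_eq_mul, ← Finset.sum_const]
    calc ∑ _c ∈ (W.filter (fun c => ∀ p ∈ md y z q, nd A F p c)).filter (fun c => T ≤ |x c|), T ^ (2 * (2 * t)) ≤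
        ∑ c ∈ (W.filter (fun c => ∀ p ∈ md y z q, nd A F p c)).filter (fun c => T ≤ |x c|), (x c) ^ (2 * (2 * t)) := by
          apply Finset.sum_le_sum
          intro c hc
          rw [mem_filter] at hc
          rw [pow_mul, pow_mul (x c), ← sq_abs (x c), ← pow_mul, ← pow_mul]
          exact pow_le_pow_left₀ hT0.le hc.2 _
      _ ≤ _ := by
          apply Finset.sum_le_sum_of_subset_of_nonneg (filter_subset _ _)
          intro c _ _
          rw [pow_mul]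
          positivity
  rw [hx] at h2
  have h3 : (((W.filter (fun c => (∀ p ∈ md y z q, nd A F p c) ∧ (h : ℝ) / w < |((Sv b q A F I (pz y ∪ md y z q) c).card : ℝ) - r * (Sv b q A F I (pz y) c).card|)).card : ℝ)) *
      T ^ (2 * (2 * t)) ≤ (K + (2 * h / r) ^ (2 * (2 * t)) / L ^ (2 * t)) * W.card := by
    refine le_trans ?_ (h2.trans h1)
    apply mul_le_mul_of_nonneg_right _ (by positivity)
    rw [hx] at hsub
    exact_mod_cast card_le_card hsub
  have hTp : 0 < T ^ (2 * (2 * t)) := by positivity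
  rw [← le_div_iff₀ hTp] at h3
  refine h3.trans ?_
  have hW0 : (0 : ℝ) ≤ W.card := Nat.cast_nonneg _
  rw [mul_div_right_comm]
  apply mul_le_mul_of_nonneg_right _ hW0
  have hq2t : (w ^ 2) ^ (2 * (2 * t)) = (y : ℝ) ^ (2 * t) := by
    rw [← hq4, ← pow_mul, ← pow_mul]
    congr 1
    ring
  have hqt : w ^ (2 * (2 * t)) = (y : ℝ) ^ t := by
    rw [← hq4, ← pow_mul]
    congr 1
    ring
  have hyt : (0 : ℝ) < (y : ℝ) ^ t := by positivity
  have e1 : K / T ^ (2 * (2 * t)) = K1 * K0 ^ (2 * (2 * t)) / (y : ℝ) ^ t := by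
    rw [hK, hT, div_pow, div_pow, mul_pow K0 (h : ℝ), mul_pow (w ^ 2) r, mul_pow w r, hq2t, hqt]
    have e2 : (y : ℝ) ^ (2 * t) = (y : ℝ) ^ t * (y : ℝ) ^ t := by rw [two_mul, pow_add]
    rw [e2]
    field_simp
  have e2 : (2 * h / r) ^ (2 * (2 * t)) / L ^ (2 * t) / T ^ (2 * (2 * t)) ≤ 2 ^ (2 * (2 * t)) / (y : ℝ) ^ t := by
    have e3 : (2 * h / r) ^ (2 * (2 * t)) / L ^ (2 * t) / T ^ (2 * (2 * t)) = 2 ^ (2 * (2 * t)) * (y : ℝ) ^ t / L ^ (2 * t) := by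
      rw [hT, div_pow (2 * (h : ℝ)) r, div_pow (h : ℝ) (w * r), mul_pow 2 (h : ℝ), mul_pow w r, hqt]
      field_simp
    rw [e3, div_le_div_iff₀ (by positivity) hyt]
    have e4 : (y : ℝ) ^ t * (y : ℝ) ^ t ≤ L ^ (2 * t) := by
      rw [← pow_add, ← two_mul]
      exact pow_le_pow_left₀ hy0.le hyL _
    calc 2 ^ (2 * (2 * t)) * (y : ℝ) ^ t * (y : ℝ) ^ t = 2 ^ (2 * (2 * t)) * ((y : ℝ) ^ t * (y : ℝ) ^ t) := by ring
      _ ≤ 2 ^ (2 * (2 * t)) * L ^ (2 * t) := mul_le_mul_of_nonneg_left e4 (by positivity)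
  rw [add_div, e1, add_div]
  linarith

end Pool.Agent.Q236.MR
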