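import Pool.Agent.Q236.MR.Step

set_option autoImplicit false

/-!
# Residues of random polynomials at one and two points
-/

namespace Pool.Agent.Q236.MR

open Finset Polynomial

section Count

variable {G H : Type*} [AddCommGroup G] [AddCommGroup H] [Fintype G] [Fintype H]

lemma count_surj (φ : G →+ H) (hφ : Function.Surjective φ) (P : H → Prop) [DecidablePred P] [DecidablePred fun g => P (φ g)] :
    (univ.filter (fun g => P (φ g))).card * Fintype.card H = (univ.filter (fun h => P h)).card * Fintype.card G := by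
  classical
  have hfib : ∀ h : H, (univ.filter (fun g => φ g = h)).card = (univ.filter (fun g => φ g = 0)).card := by
    intro h
    exact AddMonoidHom.card_fiber_eq_of_mem_range φ (hφ h) (hφ 0)
  have h1 : (univ.filter (fun g => P (φ g))).card = (univ.filter (fun h => P h)).card * (univ.filter (fun g => φ g = 0)).card := by
    rw [Finset.card_eq_sum_card_fiberwise (f := φ) (s := univ.filter (fun g => P (φ g))) (t := univ.filter (fun h => P h))
      (fun g hg => by
        simp only [coe_filter, mem_univ, true_and, Set.mem_setOf_eq] at hg ⊢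
        exact hg)]
    rw [Finset.sum_congr rfl (g := fun _ => (univ.filter (fun g => φ g = 0)).card), Finset.sum_const, smul_eq_mul]
    intro h hh
    rw [← hfib h]
    congr 1
    ext g
    simp only [mem_filter, mem_univ, true_and]
    constructor
    · exact fun h1 => h1.2
    · intro h1
      rw [h1]
      exact ⟨(mem_filter.1 hh).2, rfl⟩
  have h2 : Fintype.card G = Fintype.card H * (univ.filter (fun g => φ g = 0)).card := by
    rw [← Finset.card_univ, Finset.card_eq_sum_card_fiberwise (f := φ) (s := univ) (t := univ) (fun g _ => by simp)]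
    rw [Finset.sum_congr rfl (fun h _ => hfib h), Finset.sum_const, smul_eq_mul, Finset.card_univ]
  rw [h1, h2]
  ring

end Count

variable {n d e : ℕ}

/-- a system of linear forms in the values -/
structure Forms (n e : ℕ) where
  /-- the index of the variable -/
  ix : Fin e → Fin n
  /-- the coefficient -/
  s : Fin e → ℤ
  /-- the constant term -/
  r : Fin e → ℤ

/-- the values of the polynomials at `k` -/
def pv (F : Fin n → ℤ[X]) (c : Fin n → Fin d → ℤ) (k : ℕ) (i : Fin n) : ℤ :=
  (F i).eval (k : ℤ) + ∑ j, c i j * (k : ℤ) ^ (j : ℕ)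

/-- the value of a form -/
def fv (A : Forms n e) (v : Fin n → ℤ) (t : Fin e) : ℤ := A.s t * v (A.ix t) + A.r t

/-- no form is divisible by `p` at `k` -/
def good (A : Forms n e) (F : Fin n → ℤ[X]) (p : ℕ) (c : Fin n → Fin d → ℤ) (k : ℕ) : Prop :=
  ∀ t, ¬ (p : ℤ) ∣ fv A (pv F c k) t

/-- some argument is good -/
def nd (A : Forms n e) (F : Fin n → ℤ[X]) (p : ℕ) (c : Fin n → Fin d → ℤ) : Prop := ∃ k : ℕ, good A F p c k

section Mod

variable (p : ℕ) [Fact p.Prime]

/-- the values of the random parts modulo `p` -/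
noncomputable def phi (k : ℕ) : (Fin n → Fin d → ZMod p) →+ (Fin n → ZMod p) where
  toFun c := fun i => ∑ j, c i j * (k : ZMod p) ^ (j : ℕ)
  map_zero' := by
    funext i
    simp
  map_add' c c' := by
    funext i
    simp only [Pi.add_apply, add_mul, Finset.sum_add_distrib]

/-- good residues -/
def gz (A : Forms n e) (u : Fin n → ZMod p) : Prop := ∀ t, (A.s t : ZMod p) * u (A.ix t) + (A.r t : ZMod p) ≠ 0

/-- the fixed parts modulo `p` -/
noncomputable def Fz (F : Fin n → ℤ[X]) (k : ℕ) : Fin n → ZMod p := fun i => (((F i).eval (k : ℤ) : ℤ) : ZMod p)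

/-- the reduction -/
def rd (c : Fin n → Fin d → ℤ) : Fin n → Fin d → ZMod p := fun i j => (c i j : ZMod p)

lemma good_iff (A : Forms n e) (F : Fin n → ℤ[X]) (c : Fin n → Fin d → ℤ) (k : ℕ) :
    good A F p c k ↔ gz p A (Fz p F k + phi p k (rd p c)) := by
  unfold good gz
  apply forall_congr'
  intro t
  rw [not_iff_not, ← ZMod.intCast_zmod_eq_zero_iff_dvd]
  unfold fv pv
  push_cast
  have : (Fz p F k + phi p k (rd p c)) (A.ix t) = (((F (A.ix t)).eval (k : ℤ) : ℤ) : ZMod p) + ∑ j, (c (A.ix t) j : ZMod p) * (k : ZMod p) ^ (j : ℕ) := rfl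
  rw [this]

lemma phi_surj (hd : 1 ≤ d) (k : ℕ) : Function.Surjective (phi (n := n) (d := d) p k) := by
  intro u
  refine ⟨fun i j => if (j : ℕ) = 0 then u i else 0, ?_⟩
  funext i
  change ∑ j : Fin d, (if (j : ℕ) = 0 then u i else 0) * (k : ZMod p) ^ (j : ℕ) = u i
  rw [Finset.sum_eq_single (⟨0, by omega⟩ : Fin d)]
  · simp
  · intro j _ hj
    have : (j : ℕ) ≠ 0 := fun h => hj (Fin.ext h)
    rw [if_neg this, zero_mul]
  · intro h
    exact absurd (mem_univ _) h

lemma phi2_surj (hd : 2 ≤ d) (k l : ℕ) (hkl : (k : ZMod p) ≠ (l : ZMod p)) :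
    Function.Surjective ((phi (n := n) (d := d) p k).prod (phi (n := n) (d := d) p l)) := by
  rintro ⟨u, v⟩
  have hne : (k : ZMod p) - l ≠ 0 := sub_ne_zero.2 hkl
  obtain ⟨b, hb⟩ : ∃ b : Fin n → ZMod p, b = fun i => (u i - v i) / ((k : ZMod p) - l) := ⟨_, rfl⟩
  have hbk : ∀ i, b i * k - b i * l = u i - v i := by
    intro i
    rw [hb, ← mul_sub]
    simp only
    rw [div_mul_cancel₀ _ hne]
  have hsum : ∀ (x : ZMod p) (i : Fin n), ∑ j : Fin d, (if (j : ℕ) = 0 then u i - b i * k else if (j : ℕ) = 1 then b i else 0) *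
      x ^ (j : ℕ) = u i - b i * k + b i * x := by
    intro x i
    have h2 : ∀ j : Fin d, (if (j : ℕ) = 0 then u i - b i * k else if (j : ℕ) = 1 then b i else 0) * x ^ (j : ℕ) =
        (if j = (⟨0, by omega⟩ : Fin d) then u i - b i * k else 0) + if j = (⟨1, by omega⟩ : Fin d) then b i * x else 0 := by
      intro j
      have e0 : j = (⟨0, by omega⟩ : Fin d) ↔ (j : ℕ) = 0 := Fin.ext_iff
      have e1 : j = (⟨1, by omega⟩ : Fin d) ↔ (j : ℕ) = 1 := Fin.ext_iff
      by_cases h0 : (j : ℕ) = 0
      · rw [if_pos h0, if_pos (e0.2 h0), if_neg (fun h => by rw [e1] at h; omega), h0]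
        ring
      · by_cases h1 : (j : ℕ) = 1
        · rw [if_neg h0, if_pos h1, if_neg (fun h => h0 (e0.1 h)), if_pos (e1.2 h1), h1]
          ring
        · rw [if_neg h0, if_neg h1, if_neg (fun h => h0 (e0.1 h)), if_neg (fun h => h1 (e1.1 h))]
          ring
    rw [Finset.sum_congr rfl (fun j _ => h2 j), Finset.sum_add_distrib, Finset.sum_ite_eq' univ, Finset.sum_ite_eq' univ]
    simp
  refine ⟨fun i j => if (j : ℕ) = 0 then u i - b i * k else if (j : ℕ) = 1 then b i else 0, ?_⟩
  rw [AddMonoidHom.prod_apply]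
  ext i
  · change ∑ j : Fin d, (if (j : ℕ) = 0 then u i - b i * k else if (j : ℕ) = 1 then b i else 0) * (k : ZMod p) ^ (j : ℕ) = u i
    rw [hsum]
    ring
  · change ∑ j : Fin d, (if (j : ℕ) = 0 then u i - b i * k else if (j : ℕ) = 1 then b i else 0) * (l : ZMod p) ^ (j : ℕ) = v i
    rw [hsum]
    linear_combination -(hbk i)

open Classical in
/-- the density of the good residues -/
noncomputable def qd (A : Forms n e) : ℝ := ((univ.filter (fun u : Fin n → ZMod p => gz p A u)).card : ℝ) / (p : ℝ) ^ n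

lemma card_fun : Fintype.card (Fin n → ZMod p) = p ^ n := by
  rw [Fintype.card_fun, ZMod.card, Fintype.card_fin]

lemma card_arr : Fintype.card (Fin n → Fin d → ZMod p) = (p ^ d) ^ n := by
  rw [Fintype.card_fun, Fintype.card_fun, ZMod.card, Fintype.card_fin, Fintype.card_fin]

open Classical in
lemma card_shift (A : Forms n e) (w : Fin n → ZMod p) :
    (univ.filter (fun u : Fin n → ZMod p => gz p A (w + u))).card = (univ.filter (fun u : Fin n → ZMod p => gz p A u)).card := by
  apply Finset.card_nbij' (fun u => w + u) (fun u => u - w)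
  · intro u hu
    simp only [coe_filter, mem_univ, true_and, Set.mem_setOf_eq] at hu ⊢
    exact hu
  · intro u hu
    simp only [coe_filter, mem_univ, true_and, Set.mem_setOf_eq] at hu ⊢
    rw [add_sub_cancel]
    exact hu
  · intro u _
    simp
  · intro u _
    simp

open Classical in
/-- **one point** -/
lemma one_point (A : Forms n e) (F : Fin n → ℤ[X]) (hd : 1 ≤ d) (k : ℕ) :
    ((univ.filter (fun c : Fin n → Fin d → ZMod p => gz p A (Fz p F k + phi p k c))).card : ℝ) = qd p A * ((p ^ d) ^ n : ℕ) := by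
  have hp0 : (0 : ℝ) < p := by exact_mod_cast (Fact.out : p.Prime).pos
  have h := count_surj (phi (n := n) (d := d) p k) (phi_surj p hd k) (fun u => gz p A (Fz p F k + u))
  rw [card_shift, card_fun, card_arr] at h
  have h' : ((univ.filter (fun c : Fin n → Fin d → ZMod p => gz p A (Fz p F k + phi p k c))).card : ℝ) * (p : ℝ) ^ n =
      (univ.filter (fun u : Fin n → ZMod p => gz p A u)).card * ((p ^ d) ^ n : ℕ) := by exact_mod_cast h
  unfold qd
  rw [div_mul_eq_mul_div, eq_div_iff (by positivity)]
  exact h'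

open Classical in
/-- **two points** -/
lemma two_points (A : Forms n e) (F : Fin n → ℤ[X]) (hd : 2 ≤ d) (k l : ℕ) (hkl : (k : ZMod p) ≠ (l : ZMod p)) :
    ((univ.filter (fun c : Fin n → Fin d → ZMod p => gz p A (Fz p F k + phi p k c) ∧ gz p A (Fz p F l + phi p l c))).card : ℝ) =
      qd p A ^ 2 * ((p ^ d) ^ n : ℕ) := by
  have hp0 : (0 : ℝ) < p := by exact_mod_cast (Fact.out : p.Prime).pos
  have h := count_surj ((phi (n := n) (d := d) p k).prod (phi (n := n) (d := d) p l)) (phi2_surj p hd k l hkl)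
    (fun u => gz p A (Fz p F k + u.1) ∧ gz p A (Fz p F l + u.2))
  have h2 : (univ.filter (fun u : (Fin n → ZMod p) × (Fin n → ZMod p) => gz p A (Fz p F k + u.1) ∧ gz p A (Fz p F l + u.2))) =
      (univ.filter (fun u : Fin n → ZMod p => gz p A (Fz p F k + u))) ×ˢ (univ.filter (fun u : Fin n → ZMod p => gz p A (Fz p F l + u))) := by
    ext u
    simp [Finset.mem_product]
  rw [h2, card_product, card_shift, card_shift, Fintype.card_prod, card_fun, card_arr] at h
  have h' : ((univ.filter (fun c : Fin n → Fin d → ZMod p => gz p A (Fz p F k + phi p k c) ∧ gz p A (Fz p F l + phi p l c))).card : ℝ) *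
      ((p : ℝ) ^ n * (p : ℝ) ^ n) = (univ.filter (fun u : Fin n → ZMod p => gz p A u)).card *
      (univ.filter (fun u : Fin n → ZMod p => gz p A u)).card * ((p ^ d) ^ n : ℕ) := by exact_mod_cast h
  unfold qd
  rw [div_pow, div_mul_eq_mul_div, eq_div_iff (by positivity), sq, sq]
  exact h'

lemma qd_nonneg (A : Forms n e) : 0 ≤ qd p A := by unfold qd; positivity

lemma card_coord (i : Fin n) (a : ZMod p) : by classical exact
    (univ.filter (fun u : Fin n → ZMod p => u i = a)).card * p = p ^ n := by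
  classical
  have h := count_surj (G := Fin n → ZMod p) (H := ZMod p) (Pi.evalAddMonoidHom (fun _ => ZMod p) i) (fun x => ⟨fun _ => x, rfl⟩)
    (fun x => x = a)
  rw [card_fun, ZMod.card] at h
  have h1 : (univ.filter (fun x : ZMod p => x = a)).card = 1 := by
    rw [Finset.card_eq_one]
    exact ⟨a, by ext x; simp⟩
  rw [h1, one_mul] at h
  exact h

lemma qd_ge (A : Forms n e) (hs : ∀ t, (A.s t : ZMod p) ≠ 0) : 1 - e / (p : ℝ) ≤ qd p A := by
  classical
  have hp0 : (0 : ℝ) < p := by exact_mod_cast (Fact.out : p.Prime).pos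
  have h1 : (univ : Finset (Fin n → ZMod p)) ⊆ (univ.filter (fun u : Fin n → ZMod p => gz p A u)) ∪
      (univ : Finset (Fin e)).biUnion (fun t => univ.filter (fun u : Fin n → ZMod p => u (A.ix t) = -(A.r t : ZMod p) / A.s t)) := by
    intro u _
    rw [mem_union, mem_biUnion]
    by_cases h : gz p A u
    · left
      exact mem_filter.2 ⟨mem_univ _, h⟩
    · right
      unfold gz at h
      push Not at h
      obtain ⟨t, ht⟩ := h
      refine ⟨t, mem_univ _, mem_filter.2 ⟨mem_univ _, ?_⟩⟩
      rw [eq_div_iff (hs t)]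
      linear_combination ht
  have h2 := (card_le_card h1).trans (card_union_le _ _)
  have h3 : (p : ℝ) ^ n ≤ (univ.filter (fun u : Fin n → ZMod p => gz p A u)).card + e * ((p : ℝ) ^ n / p) := by
    have h4 : ((univ : Finset (Fin e)).biUnion (fun t => univ.filter (fun u : Fin n → ZMod p => u (A.ix t) = -(A.r t : ZMod p) / A.s t))).card ≤
        ∑ t : Fin e, (univ.filter (fun u : Fin n → ZMod p => u (A.ix t) = -(A.r t : ZMod p) / A.s t)).card := card_biUnion_le
    have h5 : ∀ t : Fin e, ((univ.filter (fun u : Fin n → ZMod p => u (A.ix t) = -(A.r t : ZMod p) / A.s t)).card : ℝ) = (p : ℝ) ^ n / p := by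
      intro t
      rw [eq_div_iff hp0.ne']
      have := card_coord (n := n) p (A.ix t) (-(A.r t : ZMod p) / A.s t)
      exact_mod_cast this
    have h6 : (((univ : Finset (Fin e)).biUnion (fun t => univ.filter (fun u : Fin n → ZMod p => u (A.ix t) = -(A.r t : ZMod p) / A.s t))).card : ℝ) ≤
        e * ((p : ℝ) ^ n / p) := by
      calc (((univ : Finset (Fin e)).biUnion (fun t => univ.filter (fun u : Fin n → ZMod p => u (A.ix t) = -(A.r t : ZMod p) / A.s t))).card : ℝ) ≤
          ∑ t : Fin e, ((univ.filter (fun u : Fin n → ZMod p => u (A.ix t) = -(A.r t : ZMod p) / A.s t)).card : ℝ) := by exact_mod_cast h4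
        _ = e * ((p : ℝ) ^ n / p) := by
          rw [Finset.sum_congr rfl (fun t _ => h5 t), Finset.sum_const, card_univ, Fintype.card_fin, nsmul_eq_mul]
    have h7 : ((univ : Finset (Fin n → ZMod p)).card : ℝ) = (p : ℝ) ^ n := by
      rw [card_univ, card_fun]
      push_cast
      rfl
    have h8 : ((univ : Finset (Fin n → ZMod p)).card : ℝ) ≤ (univ.filter (fun u : Fin n → ZMod p => gz p A u)).card +
        ((univ : Finset (Fin e)).biUnion (fun t => univ.filter (fun u : Fin n → ZMod p => u (A.ix t) = -(A.r t : ZMod p) / A.s t))).card := by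
      exact_mod_cast h2
    linarith
  unfold qd
  rw [le_div_iff₀ (by positivity)]
  have : (1 - e / (p : ℝ)) * (p : ℝ) ^ n = (p : ℝ) ^ n - e * ((p : ℝ) ^ n / p) := by ring
  linarith

lemma qd_le_one (A : Forms n e) : qd p A ≤ 1 := by
  classical
  have hp0 : (0 : ℝ) < p := by exact_mod_cast (Fact.out : p.Prime).pos
  unfold qd
  rw [div_le_one (by positivity)]
  have : (univ.filter (fun u : Fin n → ZMod p => gz p A u)).card ≤ p ^ n := by
    rw [← card_fun (n := n) p, ← card_univ]
    exact card_filter_le _ _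
  exact_mod_cast this

end Mod

end Pool.Agent.Q236.MR
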