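import Pool.Agent.Q236.MR.Dev
import Pool.Agent.H373R2.T7.Fund
import Pool.Agent.W123.RP.Pair
import Pool.Agent.Q236.RP.Crt

set_option autoImplicit false

/-!
# Lower bounds for the densities, and the periodic conditions
-/

namespace Pool.Agent.Q236.MR

open Finset Filter Polynomial
open Pool.Agent.Q236.RP (ev_log_ge ev_pow_log eval_mod)
open Pool.Agent.Q236.CG (BA mem_BA)
open Pool.Agent.H373R2.T7 (pz mem_pz sum_pz_le Vz Vz_low nuB PerB nuB_le)

variable {n d e : ℕ}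

lemma pow_one_sub_le (m : ℕ) (x : ℝ) (hx0 : 0 ≤ x) (hx1 : x ≤ 1) (hm : m * x ≤ 1) : (1 - x) ^ m ≤ 1 - m * x / 2 := by
  have h1 : (1 + (m : ℝ) * x) ≤ (1 + x) ^ m := one_add_mul_le_pow (by linarith) m
  have h2 : (1 - x) ^ m * (1 + x) ^ m ≤ 1 := by
    rw [← mul_pow]
    apply pow_le_one₀
    · nlinarith
    · nlinarith
  have h0 : 0 ≤ (1 - x) ^ m := pow_nonneg (by linarith) m
  have hmx : 0 ≤ (m : ℝ) * x := by positivity
  have h3 : (1 - x) ^ m * (1 + m * x) ≤ 1 := (mul_le_mul_of_nonneg_left h1 h0).trans h2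
  have h4 : (1 : ℝ) ≤ (1 - m * x / 2) * (1 + m * x) := by nlinarith
  have h5 : 0 < 1 + (m : ℝ) * x := by linarith
  have h6 : (1 - x) ^ m * (1 + m * x) ≤ (1 - m * x / 2) * (1 + m * x) := h3.trans h4
  exact le_of_mul_le_mul_right h6 h5

lemma fac_low (κ p : ℕ) (hp : 2 * κ ≤ p) (hp1 : 1 ≤ p) : (1 - 1 / (p : ℝ)) ^ (2 * κ) ≤ 1 - κ / p := by
  have hp0 : (0 : ℝ) < p := by exact_mod_cast hp1
  have hp1r : (1 : ℝ) ≤ p := by exact_mod_cast hp1
  have h1 := pow_one_sub_le (2 * κ) (1 / (p : ℝ)) (by positivity) (by rw [div_le_one hp0]; exact hp1r) (by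
    rw [mul_one_div, div_le_one hp0]
    exact_mod_cast hp)
  refine h1.trans (le_of_eq ?_)
  push_cast
  ring

/-- lower bound for the density of a system of conditions -/
theorem PP_low (κ : ℕ) : ∃ C1 y0 : ℕ, ∀ y : ℕ, y0 ≤ y → ∀ Q : ℕ → ℕ → Prop, PerB Q κ → (∀ p ∈ pz y, nuB Q p < p) →
    1 / Real.log y ^ C1 ≤ ∏ p ∈ pz y, (1 - (nuB Q p : ℝ) / p) := by
  classical
  obtain ⟨C, N0, hV⟩ := Vz_low
  obtain ⟨c0, hc0⟩ : ∃ c0 : ℝ, c0 = (1 / (2 * κ + 1 : ℝ)) ^ (2 * κ + 1) := ⟨_, rfl⟩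
  have hc00 : 0 < c0 := by rw [hc0]; positivity
  obtain ⟨y1, hy1⟩ : ∃ y1 : ℕ, Real.exp (1 / c0) ≤ y1 := exists_nat_ge _
  refine ⟨2 * κ * C + 1, max (max N0 y1) 3, ?_⟩
  intro y hy Q hQ hadm
  have hyN : N0 ≤ y := (le_max_left _ _).trans ((le_max_left _ _).trans hy)
  have hyy1 : y1 ≤ y := (le_max_right _ _).trans ((le_max_left _ _).trans hy)
  have hy3 : 3 ≤ y := (le_max_right _ _).trans hy
  have hVy := hV y hyN
  have hl1 : 1 / c0 ≤ Real.log y := by
    rw [Real.le_log_iff_exp_le (by exact_mod_cast (by omega : 0 < y))]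
    exact hy1.trans (by exact_mod_cast hyy1)
  have hl0 : 0 < Real.log y := lt_of_lt_of_le (by positivity) hl1
  have hfac : ∀ p ∈ pz y, (if p ≤ 2 * κ then 1 / (2 * κ + 1 : ℝ) else 1) * (1 - 1 / (p : ℝ)) ^ (2 * κ) ≤ 1 - (nuB Q p : ℝ) / p := by
    intro p hp
    have hpp := (mem_pz.1 hp).2
    have hp0 : (0 : ℝ) < p := by exact_mod_cast hpp.pos
    have hp1r : (1 : ℝ) ≤ p := by exact_mod_cast hpp.one_lt.le
    have hx1 : (1 : ℝ) / p ≤ 1 := by rw [div_le_one hp0]; exact hp1r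
    have hx0 : (0 : ℝ) ≤ 1 / p := by positivity
    have hle1 : (1 - 1 / (p : ℝ)) ^ (2 * κ) ≤ 1 := pow_le_one₀ (by linarith) (by linarith)
    split_ifs with hps
    · have h1 : (1 : ℝ) / p ≤ 1 - (nuB Q p : ℝ) / p := by
        have h2 : (nuB Q p : ℝ) + 1 ≤ p := by exact_mod_cast hadm p hp
        rw [div_le_iff₀ hp0, sub_mul, one_mul, div_mul_cancel₀ _ hp0.ne']
        linarith
      have h2 : 1 / (2 * κ + 1 : ℝ) ≤ 1 / p := by
        apply one_div_le_one_div_of_le hp0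
        have : (p : ℝ) ≤ 2 * κ := by exact_mod_cast hps
        linarith
      have h3 : (0 : ℝ) ≤ 1 / (2 * κ + 1 : ℝ) := by positivity
      calc 1 / (2 * κ + 1 : ℝ) * (1 - 1 / (p : ℝ)) ^ (2 * κ) ≤ 1 / (2 * κ + 1 : ℝ) * 1 := mul_le_mul_of_nonneg_left hle1 h3
        _ ≤ _ := by rw [mul_one]; exact h2.trans h1
    · rw [one_mul]
      refine (fac_low κ p (by omega) hpp.one_lt.le).trans ?_
      have : (nuB Q p : ℝ) / p ≤ κ / p := by
        apply div_le_div_of_nonneg_right _ hp0.le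
        exact_mod_cast hQ.few p hpp
      linarith
  have hprod : (∏ p ∈ pz y, (if p ≤ 2 * κ then 1 / (2 * κ + 1 : ℝ) else 1)) * Vz y ^ (2 * κ) ≤ ∏ p ∈ pz y, (1 - (nuB Q p : ℝ) / p) := by
    have e : (∏ p ∈ pz y, (if p ≤ 2 * κ then 1 / (2 * κ + 1 : ℝ) else 1)) * Vz y ^ (2 * κ) =
        ∏ p ∈ pz y, ((if p ≤ 2 * κ then 1 / (2 * κ + 1 : ℝ) else 1) * (1 - 1 / (p : ℝ)) ^ (2 * κ)) := by
      rw [Finset.prod_mul_distrib]
      congr 1
      unfold Vz
      rw [Finset.prod_pow]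
    rw [e]
    apply Finset.prod_le_prod
    · intro p hp
      have hpp := (mem_pz.1 hp).2
      have hp0 : (0 : ℝ) < p := by exact_mod_cast hpp.pos
      have hp1r : (1 : ℝ) ≤ p := by exact_mod_cast hpp.one_lt.le
      have hx1 : (1 : ℝ) / p ≤ 1 := by rw [div_le_one hp0]; exact hp1r
      apply mul_nonneg
      · split_ifs <;> positivity
      · exact pow_nonneg (by linarith) _
    · exact hfac
  have hc : c0 ≤ ∏ p ∈ pz y, (if p ≤ 2 * κ then 1 / (2 * κ + 1 : ℝ) else 1) := by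
    rw [← Finset.prod_filter_mul_prod_filter_not (pz y) (fun p => p ≤ 2 * κ)]
    have h2 : ∏ p ∈ (pz y).filter (fun p => ¬ p ≤ 2 * κ), (if p ≤ 2 * κ then 1 / (2 * κ + 1 : ℝ) else 1) = 1 := by
      apply Finset.prod_eq_one
      intro p hp
      rw [mem_filter] at hp
      rw [if_neg hp.2]
    have h3 : ∏ p ∈ (pz y).filter (fun p => p ≤ 2 * κ), (if p ≤ 2 * κ then 1 / (2 * κ + 1 : ℝ) else 1) =
        (1 / (2 * κ + 1 : ℝ)) ^ ((pz y).filter (fun p => p ≤ 2 * κ)).card := by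
      rw [← Finset.prod_const]
      apply Finset.prod_congr rfl
      intro p hp
      rw [mem_filter] at hp
      rw [if_pos hp.2]
    rw [h2, h3, mul_one, hc0]
    have h4 : ((pz y).filter (fun p => p ≤ 2 * κ)).card ≤ 2 * κ + 1 := by
      have : (pz y).filter (fun p => p ≤ 2 * κ) ⊆ range (2 * κ + 1) := by
        intro p hp
        rw [mem_filter] at hp
        rw [mem_range]
        omega
      have h5 := card_le_card this
      rwa [card_range] at h5
    apply pow_le_pow_of_le_one (by positivity) _ h4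
    rw [div_le_one (by positivity)]
    have : (0 : ℝ) ≤ κ := Nat.cast_nonneg _
    linarith
  have hVy' : (1 / Real.log y ^ C) ^ (2 * κ) ≤ Vz y ^ (2 * κ) := pow_le_pow_left₀ (by positivity) hVy _
  calc 1 / Real.log y ^ (2 * κ * C + 1) = (1 / Real.log y) * (1 / Real.log y ^ C) ^ (2 * κ) := by
        rw [div_pow, one_pow, ← pow_mul, pow_succ, mul_comm C (2 * κ)]
        field_simp
    _ ≤ c0 * (1 / Real.log y ^ C) ^ (2 * κ) := by
        apply mul_le_mul_of_nonneg_right _ (by positivity)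
        rw [one_div_le (by positivity) hc00]
        exact hl1
    _ ≤ (∏ p ∈ pz y, (if p ≤ 2 * κ then 1 / (2 * κ + 1 : ℝ) else 1)) * Vz y ^ (2 * κ) := mul_le_mul hc hVy' (by positivity)
        (hc00.le.trans hc)
    _ ≤ _ := hprod

/-- lower bound for the product of the densities -/
theorem rho_low (e : ℕ) : ∃ C2 y0 : ℕ, ∀ q y z : ℕ, y0 ≤ z → 2 * e ≤ y → ∀ (n s0 : ℕ) (A : Forms n e), s0 ≤ y →
    (∀ t, ∀ p : ℕ, p.Prime → (p : ℤ) ∣ A.s t → p ≤ s0) → 1 / Real.log z ^ C2 ≤ ∏ p ∈ md y z q, rho A p := by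
  obtain ⟨C, N0, hV⟩ := Vz_low
  refine ⟨2 * e * C, max N0 3, ?_⟩
  intro q y z hz hye n s0 A hs0 hs
  have hzN : N0 ≤ z := (le_max_left _ _).trans hz
  have hz3 : 3 ≤ z := (le_max_right _ _).trans hz
  have hl0 : 0 < Real.log z := Real.log_pos (by exact_mod_cast (by omega : 1 < z))
  have hVz := hV z hzN
  have h1 : (1 / Real.log z ^ C) ^ (2 * e) ≤ Vz z ^ (2 * e) := pow_le_pow_left₀ (by positivity) hVz _
  have h2 : (1 / Real.log z ^ C) ^ (2 * e) = 1 / Real.log z ^ (2 * e * C) := by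
    rw [div_pow, one_pow, ← pow_mul, mul_comm C]
  rw [← h2]
  refine h1.trans ?_
  have h01 : ∀ p ∈ pz z, 0 ≤ (1 - 1 / (p : ℝ)) ∧ (1 - 1 / (p : ℝ)) ≤ 1 := by
    intro p hp
    have hpp := (mem_pz.1 hp).2
    have hp0 : (0 : ℝ) < p := by exact_mod_cast hpp.pos
    have hp1r : (1 : ℝ) ≤ p := by exact_mod_cast hpp.one_lt.le
    have hx1 : (1 : ℝ) / p ≤ 1 := by rw [div_le_one hp0]; exact hp1r
    have hx0 : (0 : ℝ) ≤ 1 / p := by positivity
    exact ⟨by linarith, by linarith⟩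
  unfold Vz
  rw [← Finset.prod_pow]
  calc ∏ p ∈ pz z, (1 - 1 / (p : ℝ)) ^ (2 * e) ≤ ∏ p ∈ md y z q, (1 - 1 / (p : ℝ)) ^ (2 * e) := by
        rw [show pz z = (pz z).filter (fun p => y < p ∧ ¬ p ∣ q) ∪ (pz z).filter (fun p => ¬ (y < p ∧ ¬ p ∣ q)) from
          (Finset.filter_union_filter_not_eq _ _).symm, Finset.prod_union (Finset.disjoint_filter_filter_not _ _ _)]
        have h3 : ∏ p ∈ (pz z).filter (fun p => ¬ (y < p ∧ ¬ p ∣ q)), (1 - 1 / (p : ℝ)) ^ (2 * e) ≤ 1 := by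
          apply Finset.prod_le_one
          · intro p hp
            exact pow_nonneg (h01 p (mem_filter.1 hp).1).1 _
          · intro p hp
            exact pow_le_one₀ (h01 p (mem_filter.1 hp).1).1 (h01 p (mem_filter.1 hp).1).2
        have h4 : 0 ≤ ∏ p ∈ (pz z).filter (fun p => y < p ∧ ¬ p ∣ q), (1 - 1 / (p : ℝ)) ^ (2 * e) := by
          apply Finset.prod_nonneg
          intro p hp
          exact pow_nonneg (h01 p (mem_filter.1 hp).1).1 _
        calc _ ≤ (∏ p ∈ (pz z).filter (fun p => y < p ∧ ¬ p ∣ q), (1 - 1 / (p : ℝ)) ^ (2 * e)) * 1 := mul_le_mul_of_nonneg_left h3 h4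
          _ = _ := mul_one _
    _ ≤ ∏ p ∈ md y z q, rho A p := by
        apply Finset.prod_le_prod
        · intro p hp
          exact pow_nonneg (h01 p (mem_filter.1 hp).1).1 _
        · intro p hp
          rw [mem_md] at hp
          refine (fac_low e p (by omega) hp.1.2.one_lt.le).trans (rho_ge A p hp.1.2 ?_)
          rintro ⟨t, ht⟩
          have := hs t p hp.1.2 ht
          omega

lemma good_mod (A : Forms n e) (F : Fin n → ℤ[X]) (c : Fin n → Fin d → ℤ) (p k l : ℕ) (h : k ≡ l [MOD p]) :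
    good A F p c k ↔ good A F p c l := by
  unfold good
  apply forall_congr'
  intro t
  rw [not_iff_not]
  apply dvd_iff_dvd_of_dvd_sub
  unfold fv pv
  have e1 : A.s t * ((F (A.ix t)).eval (k : ℤ) + ∑ j, c (A.ix t) j * (k : ℤ) ^ (j : ℕ)) + A.r t -
      (A.s t * ((F (A.ix t)).eval (l : ℤ) + ∑ j, c (A.ix t) j * (l : ℤ) ^ (j : ℕ)) + A.r t) =
      A.s t * (((F (A.ix t)).eval (k : ℤ) - (F (A.ix t)).eval (l : ℤ)) + ∑ j, c (A.ix t) j * ((k : ℤ) ^ (j : ℕ) - (l : ℤ) ^ (j : ℕ))) := by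
    rw [Finset.sum_congr rfl (fun j _ => mul_sub (c (A.ix t) j) ((k : ℤ) ^ (j : ℕ)) ((l : ℤ) ^ (j : ℕ))), Finset.sum_sub_distrib]
    ring
  rw [e1]
  apply Dvd.dvd.mul_left
  apply dvd_add (eval_mod _ p k l h)
  apply Finset.dvd_sum
  intro j _
  apply Dvd.dvd.mul_left
  have h2 : (p : ℤ) ∣ (k : ℤ) - l := (Nat.modEq_iff_dvd.1 h.symm)
  exact h2.trans (sub_dvd_pow_sub_pow _ _ _)

/-- some point of the progression is good -/
def ndq (b q : ℕ) (A : Forms n e) (F : Fin n → ℤ[X]) (p : ℕ) (c : Fin n → Fin d → ℤ) : Prop := ∃ k, gd b q A F p c k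

lemma ndq_nd (b q : ℕ) (A : Forms n e) (F : Fin n → ℤ[X]) (p : ℕ) (c : Fin n → Fin d → ℤ) (h : ndq b q A F p c) : nd A F p c := by
  obtain ⟨k, hk⟩ := h
  exact ⟨b + q * k, hk⟩

lemma gd_mod (b q : ℕ) (A : Forms n e) (F : Fin n → ℤ[X]) (c : Fin n → Fin d → ℤ) (p k l : ℕ) (h : k ≡ l [MOD p]) :
    gd b q A F p c k ↔ gd b q A F p c l := by
  unfold gd
  apply good_mod
  exact Nat.ModEq.add_left b (Nat.ModEq.mul_left q h)

lemma gd_dvd (b q : ℕ) (A : Forms n e) (F : Fin n → ℤ[X]) (c : Fin n → Fin d → ℤ) (p k : ℕ) (hpq : p ∣ q) (h : ndq b q A F p c) :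
    gd b q A F p c k := by
  obtain ⟨l, hl⟩ := h
  refine (good_mod A F c p (b + q * k) (b + q * l) ?_).2 hl
  apply Nat.ModEq.add_left b
  have h1 : q * k ≡ 0 [MOD p] := (Nat.modEq_zero_iff_dvd).2 (Dvd.dvd.mul_right hpq k)
  have h2 : q * l ≡ 0 [MOD p] := (Nat.modEq_zero_iff_dvd).2 (Dvd.dvd.mul_right hpq l)
  exact h1.trans h2.symm

/-- the condition: `p` divides one of the forms at the point with index `k`, and not for all `k` -/
def Qc (b q : ℕ) (A : Forms n e) (F : Fin n → ℤ[X]) (c : Fin n → Fin d → ℤ) (p k : ℕ) : Prop :=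
  ndq b q A F p c ∧ ¬ gd b q A F p c k

lemma Qc_per (b q : ℕ) (A : Forms n e) (F : Fin n → ℤ[X]) (D : ℕ) (hF : ∀ i, (F i).natDegree ≤ D) (hD : d ≤ D + 1)
    (c : Fin n → Fin d → ℤ) : PerB (Qc b q A F c) (2 * (e * D) + 1) := by
  classical
  constructor
  · intro p k
    unfold Qc
    apply and_congr_right
    intro _
    rw [not_iff_not]
    exact gd_mod b q A F c p k (k % p) (Nat.mod_modEq k p).symm
  · intro p hp
    have := Fact.mk hp
    unfold nuB
    have hzero : (∀ r, ¬ Qc b q A F c p r) → ((range p).filter (fun r => Qc b q A F c p r)).card ≤ 2 * (e * D) + 1 := by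
      intro h0
      have h1 : (range p).filter (fun r => Qc b q A F c p r) = ∅ := by
        rw [filter_eq_empty_iff]
        intro r _ h
        exact h0 r h
      rw [h1, card_empty]
      exact Nat.zero_le _
    have hgoal : ((range p).filter (fun r => Qc b q A F c p r)).card ≤ 2 * (e * D) + 1 := by
      by_cases hpq : p ∣ q
      · exact hzero fun r h => h.2 (gd_dvd b q A F c p r hpq h.1)
      by_cases hnd : ndq b q A F p c
      · have hbq : (q : ZMod p) ≠ 0 := by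
          rw [Ne, ZMod.natCast_eq_zero_iff]
          exact hpq
        have h1 : (range p).filter (fun r => Qc b q A F c p r) ⊆ insert 0 ((Ioc 0 (0 + p)).filter (fun k => ¬ good A F p c (b + q * k))) := by
          intro r hr
          rw [mem_filter, mem_range] at hr
          rw [mem_insert, mem_filter, mem_Ioc]
          rcases Nat.eq_zero_or_pos r with h | h
          · exact Or.inl h
          · exact Or.inr ⟨⟨h, by omega⟩, hr.2.2⟩
        have h2 := (card_le_card h1).trans (card_insert_le _ _)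
        have h3 := few_bad p A F D hF hD c (ndq_nd b q A F p c hnd) 0 p b q hbq
        have hp0 : (p : ℝ) ≠ 0 := by exact_mod_cast hp.ne_zero
        rw [div_self hp0] at h3
        have h4 : (((Ioc 0 (0 + p)).filter (fun k => ¬ good A F p c (b + q * k))).card : ℝ) ≤ ((2 * (e * D) : ℕ) : ℝ) := by
          push_cast at h3 ⊢
          linarith
        have h5 : ((Ioc 0 (0 + p)).filter (fun k => ¬ good A F p c (b + q * k))).card ≤ 2 * (e * D) := by exact_mod_cast h4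
        exact h2.trans (by omega)
      · exact hzero fun r h => hnd h.1
    refine le_trans (le_of_eq ?_) hgoal
    congr

end Pool.Agent.Q236.MR
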