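import Mathlib

set_option autoImplicit false

/-!
# Sieving by one prime after the other: a product model
-/

namespace Pool.Agent.Q236.MR

open Finset

variable {V : Type*}

open Classical in
/-- the average of `f` over the sets which remain, for independent choices of `c ∈ Ω p`, `p ∈ l`; the choices which do
not satisfy `nd` count as `0` -/
noncomputable def TT (Ω : ℕ → Finset V) (nd : ℕ → V → Prop) (good : ℕ → V → ℕ → Prop) :
    List ℕ → (Finset ℕ → ℝ) → Finset ℕ → ℝ
  | [], f, S => f S
  | p :: l, f, S => (∑ c ∈ (Ω p).filter (fun c => nd p c), TT Ω nd good l f (S.filter (fun k => good p c k))) / (Ω p).card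

variable (Ω : ℕ → Finset V) (nd : ℕ → V → Prop) (good : ℕ → V → ℕ → Prop)

lemma TT_mono (l : List ℕ) (f g : Finset ℕ → ℝ) (S : Finset ℕ) (h : ∀ S' ⊆ S, f S' ≤ g S') :
    TT Ω nd good l f S ≤ TT Ω nd good l g S := by
  classical
  induction l generalizing S with
  | nil => exact h S (Finset.Subset.refl S)
  | cons p l ih =>
    unfold TT
    apply div_le_div_of_nonneg_right _ (Nat.cast_nonneg _)
    apply Finset.sum_le_sum
    intro c _
    exact ih _ fun S' hS' => h S' (hS'.trans (Finset.filter_subset _ _))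

lemma TT_sum {α : Type*} (A : Finset α) (w : α → ℝ) (F : α → Finset ℕ → ℝ) (l : List ℕ) (S : Finset ℕ) :
    TT Ω nd good l (fun S' => ∑ a ∈ A, w a * F a S') S = ∑ a ∈ A, w a * TT Ω nd good l (F a) S := by
  classical
  induction l generalizing S with
  | nil => rfl
  | cons p l ih =>
    unfold TT
    simp only [ih]
    rw [Finset.sum_comm, Finset.sum_div]
    apply Finset.sum_congr rfl
    intro a _
    rw [← Finset.mul_sum, mul_div_assoc]

lemma TT_mul (w : ℝ) (F : Finset ℕ → ℝ) (l : List ℕ) (S : Finset ℕ) :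
    TT Ω nd good l (fun S' => w * F S') S = w * TT Ω nd good l F S := by
  have h := TT_sum Ω nd good ({()} : Finset Unit) (fun _ => w) (fun _ => F) l S
  simpa using h

lemma TT_congr (l : List ℕ) (f g : Finset ℕ → ℝ) (S : Finset ℕ) (h : ∀ S' ⊆ S, f S' = g S') :
    TT Ω nd good l f S = TT Ω nd good l g S :=
  le_antisymm (TT_mono Ω nd good l f g S fun S' hS' => (h S' hS').le)
    (TT_mono Ω nd good l g f S fun S' hS' => (h S' hS').ge)

lemma TT_zero (l : List ℕ) (S : Finset ℕ) : TT Ω nd good l (fun _ => 0) S = 0 := by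
  have h := TT_mul Ω nd good 0 (fun _ => (0 : ℝ)) l S
  simpa using h

lemma TT_const (l : List ℕ) (K : ℝ) (hK : 0 ≤ K) (S : Finset ℕ) : TT Ω nd good l (fun _ => K) S ≤ K := by
  classical
  induction l generalizing S with
  | nil => exact le_rfl
  | cons p l ih =>
    unfold TT
    by_cases h0 : (Ω p).card = 0
    · rw [h0, Nat.cast_zero, div_zero]
      exact hK
    · have hpos : (0 : ℝ) < (Ω p).card := by exact_mod_cast Nat.pos_of_ne_zero h0
      rw [div_le_iff₀ hpos]
      calc ∑ c ∈ (Ω p).filter (fun c => nd p c), TT Ω nd good l (fun _ => K) (S.filter (fun k => good p c k)) ≤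
          ∑ _c ∈ (Ω p).filter (fun c => nd p c), K := Finset.sum_le_sum fun c _ => ih _
        _ = ((Ω p).filter (fun c => nd p c)).card * K := by rw [Finset.sum_const, nsmul_eq_mul]
        _ ≤ (Ω p).card * K := by
            apply mul_le_mul_of_nonneg_right _ hK
            exact_mod_cast Finset.card_filter_le _ _
        _ = K * (Ω p).card := mul_comm _ _

lemma TT_le (l : List ℕ) (f : Finset ℕ → ℝ) (K : ℝ) (hK : 0 ≤ K) (S : Finset ℕ) (h : ∀ S' ⊆ S, f S' ≤ K) :
    TT Ω nd good l f S ≤ K :=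
  (TT_mono Ω nd good l f (fun _ => K) S h).trans (TT_const Ω nd good l K hK S)

lemma TT_nonneg (l : List ℕ) (f : Finset ℕ → ℝ) (S : Finset ℕ) (h : ∀ S' ⊆ S, 0 ≤ f S') :
    0 ≤ TT Ω nd good l f S := by
  have h1 := TT_mono Ω nd good l (fun _ => 0) f S h
  rwa [TT_zero] at h1

open Classical in
/-- the local density -/
noncomputable def qq (p : ℕ) (J : Finset ℕ) : ℝ :=
  (((Ω p).filter (fun c => nd p c ∧ ∀ k ∈ J, good p c k)).card : ℝ) / (Ω p).card

open Classical in
lemma TT_corr (l : List ℕ) (J S : Finset ℕ) : TT Ω nd good l (fun S' => if J ⊆ S' then 1 else 0) S =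
    if J ⊆ S then (l.map (fun p => qq Ω nd good p J)).prod else 0 := by
  induction l generalizing S with
  | nil => simp [TT]
  | cons p l ih =>
    unfold TT
    simp only [ih]
    have e : ∀ c, (J ⊆ S.filter (fun k => good p c k)) ↔ (J ⊆ S ∧ ∀ k ∈ J, good p c k) := by
      intro c
      constructor
      · intro h
        exact ⟨h.trans (Finset.filter_subset _ _), fun k hk => (Finset.mem_filter.1 (h hk)).2⟩
      · rintro ⟨h1, h2⟩ k hk
        exact Finset.mem_filter.2 ⟨h1 hk, h2 k hk⟩
    simp only [e]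
    by_cases hJ : J ⊆ S
    · simp only [hJ, true_and, if_true, List.map_cons, List.prod_cons]
      rw [← Finset.sum_filter, Finset.sum_const, nsmul_eq_mul, Finset.filter_filter]
      unfold qq
      ring
    · simp only [hJ, false_and, if_false, Finset.sum_const_zero, zero_div]

open Classical in
/-- **The exponential moment.** -/
theorem TT_exp (ρ : ℕ → ℝ) (hρ : ∀ p, 0 < ρ p) (hρ1 : ∀ p, ρ p ≤ 1) (σ U : ℝ) (e : ℕ → ℝ) (I : Finset ℕ) (l : List ℕ)
    (hstep : ∀ p ∈ l, ∀ S ⊆ I, ∀ v : ℝ, 0 ≤ v → v ≤ U →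
      (∑ c ∈ (Ω p).filter (fun c => nd p c), Real.exp (σ * v * (((S.filter (fun k => good p c k)).card : ℝ) / ρ p - S.card))) /
        (Ω p).card ≤ Real.exp (e p))
    (S : Finset ℕ) (hS : S ⊆ I) (u : ℝ) (hu : 0 ≤ u) (huU : u / (l.map ρ).prod ≤ U) :
    TT Ω nd good l (fun S' => Real.exp (σ * u * ((S'.card : ℝ) / (l.map ρ).prod - S.card))) S ≤ Real.exp ((l.map e).sum) := by
  have hpos : ∀ l : List ℕ, 0 < (l.map ρ).prod := by
    intro l
    induction l with
    | nil => simp
    | cons p l ih =>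
      rw [List.map_cons, List.prod_cons]
      exact mul_pos (hρ p) ih
  have hle : ∀ l : List ℕ, (l.map ρ).prod ≤ 1 := by
    intro l
    induction l with
    | nil => simp
    | cons p l ih =>
      rw [List.map_cons, List.prod_cons]
      exact mul_le_one₀ (hρ1 p) (hpos l).le ih
  induction l generalizing S u with
  | nil =>
    simp [TT]
  | cons p l ih =>
    obtain ⟨r, hr⟩ : ∃ r, r = (l.map ρ).prod := ⟨_, rfl⟩
    have hr0 : 0 < r := by rw [hr]; exact hpos l
    have hr1 : r ≤ 1 := by rw [hr]; exact hle l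
    have hq := hρ p
    have hU0 : u / (ρ p * r) ≤ U := by
      rw [List.map_cons, List.prod_cons, ← hr] at huU
      exact huU
    have hu'0 : 0 ≤ u / ρ p := by positivity
    have hu'U : u / ρ p / r ≤ U := by
      rw [div_div]
      exact hU0
    have huU1 : u ≤ U := by
      refine le_trans ?_ hU0
      rw [le_div_iff₀ (by positivity)]
      have : ρ p * r ≤ 1 := mul_le_one₀ (hρ1 p) hr0.le hr1
      nlinarith
    unfold TT
    rw [List.map_cons, List.prod_cons, ← hr, List.map_cons, List.sum_cons, Real.exp_add]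
    have key : ∀ c, TT Ω nd good l (fun S' => Real.exp (σ * u * ((S'.card : ℝ) / (ρ p * r) - S.card)))
        (S.filter (fun k => good p c k)) ≤
        Real.exp (σ * u * (((S.filter (fun k => good p c k)).card : ℝ) / ρ p - S.card)) * Real.exp ((l.map e).sum) := by
      intro c
      obtain ⟨S1, hS1⟩ : ∃ S1, S1 = S.filter (fun k => good p c k) := ⟨_, rfl⟩
      rw [← hS1]
      have h1 := ih (fun p' hp' => hstep p' (List.mem_cons_of_mem _ hp')) S1
        (by rw [hS1]; exact (Finset.filter_subset _ _).trans hS) (u / ρ p) hu'0 (by rw [← hr]; exact hu'U)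
      rw [← hr] at h1
      have h2 : (fun S' : Finset ℕ => Real.exp (σ * u * ((S'.card : ℝ) / (ρ p * r) - S.card))) =
          fun S' : Finset ℕ => Real.exp (σ * u * ((S1.card : ℝ) / ρ p - S.card)) *
            Real.exp (σ * (u / ρ p) * ((S'.card : ℝ) / r - S1.card)) := by
        funext S'
        rw [← Real.exp_add]
        congr 1
        field_simp
        ring
      rw [h2, TT_mul]
      exact mul_le_mul_of_nonneg_left h1 (Real.exp_pos _).le
    calc (∑ c ∈ (Ω p).filter (fun c => nd p c), TT Ω nd good l (fun S' => Real.exp (σ * u * ((S'.card : ℝ) / (ρ p * r) - S.card)))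
          (S.filter (fun k => good p c k))) / (Ω p).card ≤
        (∑ c ∈ (Ω p).filter (fun c => nd p c), Real.exp (σ * u * (((S.filter (fun k => good p c k)).card : ℝ) / ρ p - S.card)) *
          Real.exp ((l.map e).sum)) / (Ω p).card :=
          div_le_div_of_nonneg_right (Finset.sum_le_sum fun c _ => key c) (Nat.cast_nonneg _)
      _ = ((∑ c ∈ (Ω p).filter (fun c => nd p c), Real.exp (σ * u * (((S.filter (fun k => good p c k)).card : ℝ) / ρ p - S.card))) /
          (Ω p).card) * Real.exp ((l.map e).sum) := by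
          rw [← Finset.sum_mul]
          ring
      _ ≤ Real.exp (e p) * Real.exp ((l.map e).sum) := by
          apply mul_le_mul_of_nonneg_right _ (Real.exp_pos _).le
          exact hstep p List.mem_cons_self S hS u hu huU1

open Classical in
/-- **The moments.** -/
theorem TT_moment (ρ : ℕ → ℝ) (hρ : ∀ p, 0 < ρ p) (hρ1 : ∀ p, ρ p ≤ 1) (U : ℝ) (hU : 0 < U) (e : ℕ → ℝ) (I : Finset ℕ)
    (l : List ℕ) (hstep : ∀ σ : ℝ, |σ| = 1 → ∀ p ∈ l, ∀ S ⊆ I, ∀ v : ℝ, 0 ≤ v → v ≤ U →
      (∑ c ∈ (Ω p).filter (fun c => nd p c), Real.exp (σ * v * (((S.filter (fun k => good p c k)).card : ℝ) / ρ p - S.card))) /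
        (Ω p).card ≤ Real.exp (e p))
    (S : Finset ℕ) (hS : S ⊆ I) (s : ℕ) :
    TT Ω nd good l (fun S' => ((S'.card : ℝ) / (l.map ρ).prod - S.card) ^ (2 * s)) S ≤
      2 * (2 * s).factorial * Real.exp ((l.map e).sum) / (U * (l.map ρ).prod) ^ (2 * s) := by
  have hpos : ∀ l : List ℕ, 0 < (l.map ρ).prod := by
    intro l
    induction l with
    | nil => simp
    | cons p l ih =>
      rw [List.map_cons, List.prod_cons]
      exact mul_pos (hρ p) ih
  obtain ⟨r, hr⟩ : ∃ r, r = (l.map ρ).prod := ⟨_, rfl⟩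
  have hr0 : 0 < r := by rw [hr]; exact hpos l
  rw [← hr]
  have hUr : 0 < U * r := mul_pos hU hr0
  have h1 := TT_exp Ω nd good ρ hρ hρ1 1 U e I l (hstep 1 (by norm_num)) S hS (U * r) hUr.le (by
    rw [← hr, mul_div_assoc, div_self hr0.ne', mul_one])
  have h2 := TT_exp Ω nd good ρ hρ hρ1 (-1) U e I l (hstep (-1) (by norm_num)) S hS (U * r) hUr.le (by
    rw [← hr, mul_div_assoc, div_self hr0.ne', mul_one])
  rw [← hr] at h1 h2
  have hfac : (0 : ℝ) < (2 * s).factorial := by exact_mod_cast Nat.factorial_pos _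
  have hpt : ∀ S' ⊆ S, ((S'.card : ℝ) / r - S.card) ^ (2 * s) ≤ ∑ a ∈ (univ : Finset Bool),
      ((2 * s).factorial / (U * r) ^ (2 * s)) *
        Real.exp ((if a then 1 else -1) * (U * r) * ((S'.card : ℝ) / r - S.card)) := by
    intro S' _
    obtain ⟨x, hx⟩ : ∃ x : ℝ, x = (S'.card : ℝ) / r - S.card := ⟨_, rfl⟩
    rw [← hx]
    rw [Fintype.sum_bool]
    have h3 := Real.pow_div_factorial_le_exp (|U * r * x|) (abs_nonneg _) (2 * s)
    have h4 : Real.exp |U * r * x| ≤ Real.exp (U * r * x) + Real.exp (-(U * r * x)) := by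
      rcases abs_cases (U * r * x) with h | h
      · rw [h.1]
        have := Real.exp_pos (-(U * r * x))
        linarith
      · rw [h.1]
        have := Real.exp_pos (U * r * x)
        linarith
    have h5 : |U * r * x| ^ (2 * s) = (U * r) ^ (2 * s) * x ^ (2 * s) := by
      rw [pow_mul, sq_abs, ← pow_mul, mul_pow]
    rw [h5, div_le_iff₀ hfac] at h3
    have h6 : (0 : ℝ) < (U * r) ^ (2 * s) := by positivity
    have e1 : (if (true : Bool) then (1 : ℝ) else -1) * (U * r) * x = U * r * x := by simp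
    have e2 : (if (false : Bool) then (1 : ℝ) else -1) * (U * r) * x = -(U * r * x) := by simp
    rw [e1, e2, ← mul_add, div_mul_eq_mul_div, le_div_iff₀ h6]
    have h7 : Real.exp |U * r * x| * (2 * s).factorial ≤ (Real.exp (U * r * x) + Real.exp (-(U * r * x))) * (2 * s).factorial :=
      mul_le_mul_of_nonneg_right h4 hfac.le
    linarith
  refine (TT_mono Ω nd good l _ _ S hpt).trans ?_
  rw [TT_sum, Fintype.sum_bool]
  have e1 : (fun S' : Finset ℕ => Real.exp ((if (true : Bool) then (1 : ℝ) else -1) * (U * r) * ((S'.card : ℝ) / r - S.card))) =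
      fun S' : Finset ℕ => Real.exp (1 * (U * r) * ((S'.card : ℝ) / r - S.card)) := by
    funext S'
    simp
  have e2 : (fun S' : Finset ℕ => Real.exp ((if (false : Bool) then (1 : ℝ) else -1) * (U * r) * ((S'.card : ℝ) / r - S.card))) =
      fun S' : Finset ℕ => Real.exp (-1 * (U * r) * ((S'.card : ℝ) / r - S.card)) := by
    funext S'
    simp
  rw [e1, e2, ← mul_add]
  have h6 : (0 : ℝ) < (U * r) ^ (2 * s) := by positivity
  rw [div_mul_eq_mul_div]
  apply div_le_div_of_nonneg_right _ h6.le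
  nlinarith [h1, h2]

end Pool.Agent.Q236.MR
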